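import Pool.Agent.Helper17.OD.GoalsGM

/-! # Project OD (MP_064283_lc), packet CDK: condensation for sets -/

namespace Pool.Agent.Helper17.OD.PkCDK

open Set
open Cardinal hiding univ

theorem map_self {f : O → O} : ∀ t : T, (∀ l ∈ t.leaves, f l = l) → t.map f = t := by
  intro t
  induction t with
  | nat n => intro _; rfl
  | ord a => intro h; simp only [Tr.map]; rw [h a rfl]
  | pr s t hs ht =>
    intro h
    simp only [Tr.map]
    rw [hs fun l hl => h l (Or.inl hl), ht fun l hl => h l (Or.inr hl)]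

theorem ofCode_inj : ∀ c c' : Code, (Tr.ofCode c : T) = Tr.ofCode c' → c = c' := by
  intro c
  induction c with
  | nat n =>
    intro c' h
    cases c' with
    | nat m => simp only [Tr.ofCode, Tr.map] at h; injection h with h; rw [h]
    | ord e => exact e.elim
    | pr s t => simp [Tr.ofCode, Tr.map] at h
  | ord e => exact e.elim
  | pr s t hs ht =>
    intro c' h
    cases c' with
    | nat m => simp [Tr.ofCode, Tr.map] at h
    | ord e => exact e.elim
    | pr s' t' =>
      simp only [Tr.ofCode, Tr.map] at h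
      injection h with h h'
      rw [hs s' h, ht t' h']

theorem ofCode_leaves : ∀ s : Code, (Tr.ofCode s : T).leaves = ∅ := by
  intro s
  induction s with
  | nat n => rfl
  | ord e => exact e.elim
  | pr s t hs ht =>
    change (Tr.ofCode s : T).leaves ∪ (Tr.ofCode t : T).leaves = ∅
    rw [hs, ht, union_self]

theorem thm (hHSZ : G_HSZ) (hCOL : G_COL) (hCLA : G_CLA) (hCON1 : G_CON1)
    (hMAPT : G_MAPT.{2, 2}) : G_CDK := by
  intro c hc hc0 d hd t hsub
  by_cases hne : ∃ (b : O) (φ : Code) (v : T), t = .pr (.ord b) (.pr (Tr.ofCode φ) v) ∧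
      v ∈ D (Iio b)
  swap
  · refine ⟨.nat 0, nat_mem _ _, ?_⟩
    ext x
    constructor
    · rintro ⟨b, φ, v, h1, h2, -⟩
      exact absurd ⟨b, φ, v, h1, h2⟩ hne
    · rintro ⟨b, φ, v, h1, -⟩
      exact absurd h1 (by simp)
  obtain ⟨b, φ, v, rfl, hv⟩ := hne
  set a := Order.succ b with ha
  have hba : b < a := Order.lt_succ b
  set A : Set O := Iio d ∪ (Tr.pr (.ord b) v : T).leaves with hA
  set Q : Code → T → Prop := fun _ _ => False with hQ
  obtain ⟨a', f, ha', hf, hran⟩ := hCOL a (Hull a Q A) (hCLA a Q A).2.1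
  have hsm : a' < c.ord := hHSZ c hc hc0 a d (.pr (.ord b) v) Q hd a' f hf hran
  obtain ⟨m1, m2, m3, m4, m5, m6, m7, m8, m9, m10⟩ := hMAPT O O f (Iio a') hf
  have hH : ∀ x ∈ A, x < a → x ∈ f '' Iio a' := by
    intro x hx hxa
    rw [hran]
    exact (hCLA a Q A).2.2 x hx hxa
  -- the collapse is the identity below `d`
  have hge : ∀ x < a', x ≤ f x := by
    intro x
    induction x using WellFoundedLT.induction with
    | ind x ih =>
      intro hx
      by_contra hlt
      rw [not_le] at hlt
      have h1 := ih (f x) hlt (hlt.trans hx)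
      exact absurd (hf (hlt.trans hx) hx hlt) (not_lt.2 h1)
  have hid : ∀ x, x < d → x < a → x < a' ∧ f x = x := by
    intro x
    induction x using WellFoundedLT.induction with
    | ind x ih =>
      intro hxd hxa
      obtain ⟨y, hy, hyx⟩ := hH x (Or.inl hxd) hxa
      have h1 : y ≤ x := hyx ▸ hge y hy
      rcases h1.lt_or_eq with h2 | h2
      · have h3 := (ih y h2 (h2.trans hxd) (h2.trans hxa)).2
        rw [h3] at hyx
        exact absurd hyx h2.ne
      · subst h2
        exact ⟨hy, hyx⟩
  -- the truth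
  have htru := (hCON1 a' f hf (by
    intro b₁ hb₁ e he ψ y hy
    rw [hran]
    have hfb : f b₁ ∈ Hull a Q A := by rw [← hran]; exact mem_image_of_mem f hb₁
    have hem : e.map f ∈ D (Iio (f b₁)) := by
      intro l hl
      rw [m1] at hl
      obtain ⟨l', hl', rfl⟩ := hl
      exact hf ((he hl').trans hb₁) hb₁ (he hl')
    have hee : e.map f ∈ D (Hull a Q A) := by
      rw [← hran, m9]
      exact ⟨e, D_mono (Iio_subset_Iio hb₁.le) he, rfl⟩
    exact ((hCLA a Q A).1 y).1 (TCl.inner hfb ((hCLA a Q A).2.1 hfb)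
      (((hCLA a Q A).1 _).2 hee) hem hy))).1
  -- the preimages of `b` and `v`
  obtain ⟨b', hb', hbb⟩ := hH b (Or.inr (Or.inl rfl)) hba
  have hvH : v ∈ D (f '' Iio a') := fun l hl => hH l (Or.inr (Or.inr hl)) ((hv hl).trans hba)
  obtain ⟨v', hv', hvv⟩ := (m9 v).1 hvH
  have hv'b : v' ∈ D (Iio b') := by
    intro l hl
    have h1 : f l ∈ v.leaves := by
      rw [← hvv, m1]
      exact mem_image_of_mem f hl
    have h2 : f l < f b' := hbb ▸ hv h1
    exact (hf.lt_iff_lt (hv' hl) hb').1 h2
  have hkey : ∀ x ∈ D (Iio b'), (Tru b' φ (.pr x v') ↔ Tru b φ (.pr (x.map f) v)) := by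
    intro x hx
    rw [htru b' hb' _ (pr_mem.2 ⟨hx, hv'b⟩) φ, hbb]
    simp only [Tr.map, hvv]
  refine ⟨.pr (.ord b') (.pr (Tr.ofCode φ) v'), ?_, ?_⟩
  · refine pr_mem.2 ⟨ord_mem.2 (hb'.trans hsm), pr_mem.2 ⟨?_, ?_⟩⟩
    · have := ofCode_leaves φ
      intro l hl
      rw [this] at hl
      exact absurd hl (notMem_empty l)
    · exact D_mono (Iio_subset_Iio hsm.le) hv'
  · have hfix : ∀ x : T, x ∈ D (Iio b) → x ∈ D (Iio d) → x.map f = x ∧ x ∈ D (Iio b') := by
      intro x hx1 hx2
      refine ⟨map_self x fun l hl => (hid l (hx2 hl) ((hx1 hl).trans hba)).2, ?_⟩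
      intro l hl
      obtain ⟨h1, h2⟩ := hid l (hx2 hl) ((hx1 hl).trans hba)
      have h3 : f l < f b' := by
        rw [h2, hbb]
        exact hx1 hl
      exact (hf.lt_iff_lt h1 hb').1 h3
    ext x
    constructor
    · intro hx
      have hxd := hsub hx
      obtain ⟨b₂, φ₂, v₂, h1, h2, h3, h4⟩ := hx
      injection h1 with e1 e2
      injection e1 with e1
      injection e2 with e2 e3
      subst e1
      subst e3
      have e4 := hfix x h3 hxd
      refine ⟨b', φ, v', rfl, hv'b, e4.2, ?_⟩
      rw [hkey x e4.2, e4.1]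
      have : φ = φ₂ := by
        exact ofCode_inj _ _ e2
      rw [this]
      exact h4
    · rintro ⟨b₂, φ₂, v₂, h1, h2, h3, h4⟩
      injection h1 with e1 e2
      injection e1 with e1
      injection e2 with e2 e3
      subst e1
      subst e3
      have hφ : φ = φ₂ := by
        exact ofCode_inj _ _ e2
      subst hφ
      have h5 : x.map f ∈ D (Iio b) := by
        intro l hl
        rw [m1] at hl
        obtain ⟨l', hl', rfl⟩ := hl
        change f l' < b
        rw [← hbb]
        have h11 : l' < b' := h3 hl'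
        exact hf (show l' ∈ Iio a' from h11.trans hb') hb' h11
      have h6 : x.map f ∈ dec (.pr (.ord b) (.pr (Tr.ofCode φ) v)) :=
        ⟨b, φ, v, rfl, hv, h5, (hkey x h3).1 h4⟩
      have h7 := hsub h6
      have h8 : x.map f = x := by
        refine map_self x fun l hl => ?_
        have h9 : f l ∈ (x.map f).leaves := by
          rw [m1]
          exact mem_image_of_mem f hl
        have h10 : l < d := lt_of_le_of_lt (hge l ((h3 hl).trans hb')) (h7 h9)
        exact (hid l h10 (lt_of_lt_of_le ((h3 hl).trans hb') ha')).2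
      rwa [h8] at h6

end Pool.Agent.Helper17.OD.PkCDK
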