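import Pool.Agent.Helper17.OD.GoalsZV

/-! # Project OD (MP_064283_lc), packet EEV: codes of trees as sets -/

namespace Pool.Agent.Helper17.OD.PkEEV

open Set

theorem ee1 {a x : T} : EE a (tg 1 x) ↔ ∃ y, a = tg 1 y ∧ y.llt x ∧ (x.IsOrd ↔ y.IsOrd) := by
  constructor
  · rintro (⟨x', y, h1, h2, h3, h4⟩ | ⟨p, q, h1, -⟩ | ⟨n, h1, -⟩ | ⟨c, h1, -⟩ | ⟨s, t, h1, -⟩)
    · simp only [tg, Tr.pr.injEq, true_and] at h1
      subst h1
      exact ⟨y, h2, h3, h4⟩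
    all_goals simp [tg, dp] at h1
  · rintro ⟨y, h1, h2, h3⟩
    exact Or.inl ⟨x, y, rfl, h1, h2, h3⟩

theorem ee3 {a p q : T} : EE a (dp p q) ↔ a = p ∨ a = q := by
  constructor
  · rintro (⟨x', y, h1, -⟩ | ⟨p', q', h1, h2⟩ | ⟨n, h1, -⟩ | ⟨c, h1, -⟩ | ⟨s, t, h1, -⟩)
    · simp [tg, dp] at h1
    · simp only [tg, dp, Tr.pr.injEq, true_and] at h1
      obtain ⟨rfl, rfl⟩ := h1
      exact h2
    all_goals simp [tg, dp] at h1
  · intro h
    exact Or.inr (Or.inl ⟨p, q, rfl, h⟩)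

theorem ee2n {a : T} {n : ℕ} : EE a (tg 2 (.nat n)) ↔
    (a = dp (tg 1 (.nat 0)) (tg 1 (.nat 0)) ∨ a = dp (tg 1 (.nat 0)) (tg 1 (.nat n))) := by
  constructor
  · rintro (⟨x', y, h1, -⟩ | ⟨p', q', h1, -⟩ | ⟨n, h1, h2⟩ | ⟨c, h1, -⟩ | ⟨s, t, h1, -⟩)
    · simp [tg] at h1
    · simp [tg, dp] at h1
    · simp only [tg, Tr.pr.injEq, Tr.nat.injEq, true_and] at h1
      subst h1
      exact h2
    all_goals simp [tg] at h1
  · intro h
    exact Or.inr (Or.inr (Or.inl ⟨n, rfl, h⟩))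

theorem ee2o {a : T} {c : O} : EE a (tg 2 (.ord c)) ↔
    (a = dp (tg 1 (.nat 1)) (tg 1 (.nat 1)) ∨ a = dp (tg 1 (.nat 1)) (tg 1 (.ord c))) := by
  constructor
  · rintro (⟨x', y, h1, -⟩ | ⟨p', q', h1, -⟩ | ⟨n, h1, -⟩ | ⟨c, h1, h2⟩ | ⟨s, t, h1, -⟩)
    · simp [tg] at h1
    · simp [tg, dp] at h1
    · simp [tg] at h1
    · simp only [tg, Tr.pr.injEq, Tr.ord.injEq, true_and] at h1
      subst h1
      exact h2
    · simp [tg] at h1
  · intro h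
    exact Or.inr (Or.inr (Or.inr (Or.inl ⟨c, rfl, h⟩)))

theorem ee2p {a s t : T} : EE a (tg 2 (.pr s t)) ↔
    (a = dp (tg 1 (.nat 2)) (tg 1 (.nat 2)) ∨
      a = dp (tg 1 (.nat 2)) (dp (dp (tg 2 s) (tg 2 s)) (dp (tg 2 s) (tg 2 t)))) := by
  constructor
  · rintro (⟨x', y, h1, -⟩ | ⟨p', q', h1, -⟩ | ⟨n, h1, -⟩ | ⟨c, h1, -⟩ | ⟨s, t, h1, h2⟩)
    · simp [tg] at h1
    · simp [tg, dp] at h1
    · simp [tg] at h1
    · simp [tg] at h1
    · simp only [tg, Tr.pr.injEq, true_and] at h1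
      obtain ⟨rfl, rfl⟩ := h1
      exact h2
  · intro h
    exact Or.inr (Or.inr (Or.inr (Or.inr ⟨s, t, rfl, h⟩)))

theorem ee_or {a b : T} (h : EE a b) : (∃ x, b = tg 1 x) ∨ (∃ p q, b = dp p q) ∨
    ∃ t, b = tg 2 t := by
  rcases h with ⟨x, y, h1, -⟩ | ⟨p, q, h1, -⟩ | ⟨n, h1, -⟩ | ⟨c, h1, -⟩ | ⟨s, t, h1, -⟩
  · exact Or.inl ⟨_, h1⟩
  · exact Or.inr (Or.inl ⟨_, _, h1⟩)
  · exact Or.inr (Or.inr ⟨_, h1⟩)
  · exact Or.inr (Or.inr ⟨_, h1⟩)
  · exact Or.inr (Or.inr ⟨_, h1⟩)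

theorem acc_nat : ∀ n : ℕ, Acc EE (tg 1 (.nat n)) := by
  intro n
  induction n using Nat.strong_induction_on with
  | _ n ih =>
    refine Acc.intro _ fun a ha => ?_
    obtain ⟨y, rfl, h1, h2⟩ := ee1.1 ha
    cases y with
    | nat m => exact ih m h1
    | ord c => exact absurd h1 (by simp [Tr.llt])
    | pr s t => exact absurd h1 (by simp [Tr.llt])

theorem acc_ord : ∀ c : O, Acc EE (tg 1 (.ord c)) := by
  intro c
  induction c using WellFoundedLT.induction with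
  | ind c ih =>
    refine Acc.intro _ fun a ha => ?_
    obtain ⟨y, rfl, h1, h2⟩ := ee1.1 ha
    cases y with
    | nat m => exact absurd (h2.1 trivial) (by simp [Tr.IsOrd])
    | ord c' => exact ih c' h1
    | pr s t => exact absurd h1 (by simp [Tr.llt])

theorem acc1 (x : T) : Acc EE (tg 1 x) := by
  cases x with
  | nat n => exact acc_nat n
  | ord c => exact acc_ord c
  | pr s t =>
    refine Acc.intro _ fun a ha => ?_
    obtain ⟨y, rfl, h1, h2⟩ := ee1.1 ha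
    exact absurd h1 (by cases y <;> simp [Tr.llt])

theorem acc3 {p q : T} (hp : Acc EE p) (hq : Acc EE q) : Acc EE (dp p q) := by
  refine Acc.intro _ fun a ha => ?_
  rcases ee3.1 ha with rfl | rfl
  · exact hp
  · exact hq

theorem acc2 : ∀ t : T, Acc EE (tg 2 t) := by
  intro t
  induction t with
  | nat n =>
    refine Acc.intro _ fun a ha => ?_
    rcases ee2n.1 ha with rfl | rfl
    · exact acc3 (acc1 _) (acc1 _)
    · exact acc3 (acc1 _) (acc1 _)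
  | ord c =>
    refine Acc.intro _ fun a ha => ?_
    rcases ee2o.1 ha with rfl | rfl
    · exact acc3 (acc1 _) (acc1 _)
    · exact acc3 (acc1 _) (acc1 _)
  | pr s t hs ht =>
    refine Acc.intro _ fun a ha => ?_
    rcases ee2p.1 ha with rfl | rfl
    · exact acc3 (acc1 _) (acc1 _)
    · exact acc3 (acc1 _) (acc3 (acc3 hs hs) (acc3 hs ht))

theorem acc_all : ∀ b : T, Acc EE b ∧ ∀ p q, b = .pr p q → Acc EE p ∧ Acc EE q := by
  intro b
  induction b with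
  | nat n =>
    refine ⟨Acc.intro _ fun a ha => ?_, fun p q h => absurd h (by simp)⟩
    rcases ee_or ha with ⟨x, h⟩ | ⟨p, q, h⟩ | ⟨t, h⟩
    · exact absurd h (by simp [tg])
    · exact absurd h (by simp [dp, tg])
    · exact absurd h (by simp [tg])
  | ord c =>
    refine ⟨Acc.intro _ fun a ha => ?_, fun p q h => absurd h (by simp)⟩
    rcases ee_or ha with ⟨x, h⟩ | ⟨p, q, h⟩ | ⟨t, h⟩
    · exact absurd h (by simp [tg])
    · exact absurd h (by simp [dp, tg])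
    · exact absurd h (by simp [tg])
  | pr s t hs ht =>
    refine ⟨?_, fun p q h => ?_⟩
    · by_cases hex : ∃ a, EE a (.pr s t)
      · obtain ⟨a, ha⟩ := hex
        rcases ee_or ha with ⟨x, h⟩ | ⟨p, q, h⟩ | ⟨x, h⟩
        · rw [h]
          exact acc1 x
        · rw [h]
          simp only [dp, tg, Tr.pr.injEq] at h
          obtain ⟨h1, h2⟩ := ht.2 p q h.2
          exact acc3 h1 h2
        · rw [h]
          exact acc2 x
      · exact Acc.intro _ fun a ha => absurd ⟨a, ha⟩ hex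
    · simp only [Tr.pr.injEq] at h
      obtain ⟨rfl, rfl⟩ := h
      exact ⟨hs.1, ht.1⟩

theorem wf : WellFounded EE := ⟨fun b => (acc_all b).1⟩

theorem tg_mem {n : ℕ} {x : T} {A : Set O} : tg n x ∈ D A ↔ x ∈ D A := by
  rw [tg, pr_mem]
  exact ⟨fun h => h.2, fun h => ⟨nat_mem _ _, h⟩⟩

theorem dp_mem {p q : T} {A : Set O} : dp p q ∈ D A ↔ p ∈ D A ∧ q ∈ D A := by
  rw [dp, tg_mem, pr_mem]

theorem closed {d : O} {a b : T} (hb : b ∈ D (Iio d)) (h : EE a b) : a ∈ D (Iio d) := by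
  rcases h with ⟨x, y, rfl, rfl, h3, h4⟩ | ⟨p, q, rfl, h2⟩ | ⟨n, rfl, h2⟩ | ⟨c, rfl, h2⟩ |
    ⟨s, t, rfl, h2⟩
  · rw [tg_mem] at hb ⊢
    cases y with
    | nat n => exact nat_mem _ _
    | ord c =>
      cases x with
      | nat m => exact absurd h3 (by simp [Tr.llt])
      | ord c' => exact ord_mem.2 (lt_trans h3 (ord_mem.1 hb))
      | pr s t => exact absurd h3 (by simp [Tr.llt])
    | pr s t => exact absurd h3 (by simp [Tr.llt])
  · rw [dp_mem] at hb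
    rcases h2 with rfl | rfl
    · exact hb.1
    · exact hb.2
  · rcases h2 with rfl | rfl
    · simp only [dp_mem, tg_mem]
      exact ⟨nat_mem _ _, nat_mem _ _⟩
    · simp only [dp_mem, tg_mem]
      exact ⟨nat_mem _ _, nat_mem _ _⟩
  · rw [tg_mem] at hb
    rcases h2 with rfl | rfl
    · simp only [dp_mem, tg_mem]
      exact ⟨nat_mem _ _, nat_mem _ _⟩
    · simp only [dp_mem, tg_mem]
      exact ⟨nat_mem _ _, hb⟩
  · rw [tg_mem, pr_mem] at hb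
    rcases h2 with rfl | rfl
    · simp only [dp_mem, tg_mem]
      exact ⟨nat_mem _ _, nat_mem _ _⟩
    · simp only [dp_mem, tg_mem]
      exact ⟨nat_mem _ _, ⟨hb.1, hb.1⟩, hb.1, hb.2⟩

/-! ### Values -/

theorem cvl_nat : ∀ n : ℕ, Cvl EE (zn n) (tg 1 (.nat n)) := by
  intro n
  induction n using Nat.strong_induction_on with
  | _ n ih =>
    rw [cvl_iff]
    constructor
    · intro y hy
      rw [zn, Ordinal.mem_toZFSet_iff] at hy
      obtain ⟨c, hc, rfl⟩ := hy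
      obtain ⟨m, rfl⟩ := Ordinal.lt_omega0.1 (hc.trans (Ordinal.natCast_lt_omega0 _))
      have hmn : m < n := by exact_mod_cast hc
      refine ⟨tg 1 (.nat m), ee1.2 ⟨_, rfl, hmn, ?_⟩, ih m hmn⟩
      simp [Tr.IsOrd]
    · intro a ha
      obtain ⟨y, rfl, h1, h2⟩ := ee1.1 ha
      cases y with
      | nat m =>
        refine ⟨zn m, ?_, ih m h1⟩
        rw [zn, zn, Ordinal.toZFSet_mem_toZFSet_iff]
        have h3 : m < n := h1
        exact_mod_cast h3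
      | ord c => exact absurd h1 (by simp [Tr.llt])
      | pr s t => exact absurd h1 (by simp [Tr.llt])

theorem cvl_ord : ∀ c : O, Cvl EE c.toZFSet (tg 1 (.ord c)) := by
  intro c
  induction c using WellFoundedLT.induction with
  | ind c ih =>
    rw [cvl_iff]
    constructor
    · intro y hy
      rw [Ordinal.mem_toZFSet_iff] at hy
      obtain ⟨c', hc, rfl⟩ := hy
      refine ⟨tg 1 (.ord c'), ee1.2 ⟨_, rfl, hc, ?_⟩, ih c' hc⟩
      simp [Tr.IsOrd]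
    · intro a ha
      obtain ⟨y, rfl, h1, h2⟩ := ee1.1 ha
      cases y with
      | nat m => exact absurd (h2.1 trivial) (by simp [Tr.IsOrd])
      | ord c' => exact ⟨c'.toZFSet, Ordinal.toZFSet_mem_toZFSet_iff.2 h1, ih c' h1⟩
      | pr s t => exact absurd h1 (by simp [Tr.llt])

theorem cvl_two {b p q : T} {z1 z2 : Z} (hb : ∀ a, EE a b ↔ a = p ∨ a = q) (h1 : Cvl EE z1 p)
    (h2 : Cvl EE z2 q) : Cvl EE {z1, z2} b := by
  rw [cvl_iff]
  constructor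
  · intro y hy
    rw [ZFSet.mem_pair] at hy
    rcases hy with rfl | rfl
    · exact ⟨p, (hb _).2 (Or.inl rfl), h1⟩
    · exact ⟨q, (hb _).2 (Or.inr rfl), h2⟩
  · intro a ha
    rcases (hb a).1 ha with rfl | rfl
    · exact ⟨z1, by simp, h1⟩
    · exact ⟨z2, by simp, h2⟩

theorem cvl_dp {p q : T} {z1 z2 : Z} (h1 : Cvl EE z1 p) (h2 : Cvl EE z2 q) :
    Cvl EE {z1, z2} (dp p q) := cvl_two (fun _ => ee3) h1 h2

theorem cvl_pair {b p q : T} {z1 z2 : Z} (hb : ∀ a, EE a b ↔ a = dp p p ∨ a = dp p q)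
    (h1 : Cvl EE z1 p) (h2 : Cvl EE z2 q) : Cvl EE (ZFSet.pair z1 z2) b := by
  have h3 := cvl_two hb (cvl_dp h1 h1) (cvl_dp h1 h2)
  have h4 : ({z1, z1} : Z) = {z1} := by
    ext z
    simp
  rw [h4] at h3
  exact h3

theorem cvl_enc : ∀ t : T, Cvl EE (enc t) (tg 2 t) := by
  intro t
  induction t with
  | nat n => exact cvl_pair (fun _ => ee2n) (cvl_nat 0) (cvl_nat n)
  | ord c => exact cvl_pair (fun _ => ee2o) (cvl_nat 1) (cvl_ord c)
  | pr s t hs ht =>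
    exact cvl_pair (fun _ => ee2p) (cvl_nat 2) (cvl_pair (fun _ => ee3) hs ht)

/-! ### Definability -/

/-- `EE` in terms of projections. -/
theorem ee_iff (a b : T) : EE a b ↔
    ((b = .pr (.nat 1) b.snd ∧ a = .pr (.nat 1) a.snd ∧ a.snd.llt b.snd ∧
      (b.snd.IsOrd ↔ a.snd.IsOrd)) ∨
    (b = .pr (.nat 3) (.pr b.snd.fst b.snd.snd) ∧ (a = b.snd.fst ∨ a = b.snd.snd)) ∨
    (b = .pr (.nat 2) b.snd ∧ (¬ b.snd.IsOrd ∧ ¬ b.snd = .pr b.snd.fst b.snd.snd) ∧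
      (a = .pr (.nat 3) (.pr (.pr (.nat 1) (.nat 0)) (.pr (.nat 1) (.nat 0))) ∨
        a = .pr (.nat 3) (.pr (.pr (.nat 1) (.nat 0)) (.pr (.nat 1) b.snd)))) ∨
    (b = .pr (.nat 2) b.snd ∧ b.snd.IsOrd ∧
      (a = .pr (.nat 3) (.pr (.pr (.nat 1) (.nat 1)) (.pr (.nat 1) (.nat 1))) ∨
        a = .pr (.nat 3) (.pr (.pr (.nat 1) (.nat 1)) (.pr (.nat 1) b.snd)))) ∨
    (b = .pr (.nat 2) (.pr b.snd.fst b.snd.snd) ∧
      (a = .pr (.nat 3) (.pr (.pr (.nat 1) (.nat 2)) (.pr (.nat 1) (.nat 2))) ∨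
        a = .pr (.nat 3) (.pr (.pr (.nat 1) (.nat 2)) (.pr (.nat 3) (.pr
          (.pr (.nat 3) (.pr (.pr (.nat 2) b.snd.fst) (.pr (.nat 2) b.snd.fst)))
          (.pr (.nat 3) (.pr (.pr (.nat 2) b.snd.fst) (.pr (.nat 2) b.snd.snd))))))))) := by
  constructor
  · rintro (⟨x, y, rfl, rfl, h3, h4⟩ | ⟨p, q, rfl, h2⟩ | ⟨n, rfl, h2⟩ | ⟨c, rfl, h2⟩ |
      ⟨s, t, rfl, h2⟩)
    · exact Or.inl ⟨rfl, rfl, h3, h4⟩
    · exact Or.inr (Or.inl ⟨rfl, h2⟩)
    · refine Or.inr (Or.inr (Or.inl ⟨rfl, ⟨?_, ?_⟩, h2⟩))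
      · simp [tg, Tr.snd, Tr.IsOrd]
      · simp [tg, Tr.snd]
    · exact Or.inr (Or.inr (Or.inr (Or.inl ⟨rfl, trivial, h2⟩)))
    · exact Or.inr (Or.inr (Or.inr (Or.inr ⟨rfl, h2⟩)))
  · rintro (⟨h1, h2, h3, h4⟩ | ⟨h1, h2⟩ | ⟨h1, ⟨h2, h3⟩, h4⟩ | ⟨h1, h2, h3⟩ | ⟨h1, h2⟩)
    · exact Or.inl ⟨_, _, h1, h2, h3, h4⟩
    · exact Or.inr (Or.inl ⟨_, _, h1, h2⟩)
    · rcases hbs : b.snd with n | c | ⟨s, t⟩
      · rw [hbs] at h1 h4
        exact Or.inr (Or.inr (Or.inl ⟨n, h1, h4⟩))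
      · rw [hbs] at h2
        exact absurd trivial h2
      · rw [hbs] at h3
        exact absurd rfl h3
    · rcases hbs : b.snd with n | c | ⟨s, t⟩
      · rw [hbs] at h2
        exact absurd h2 (by simp [Tr.IsOrd])
      · rw [hbs] at h1 h3
        exact Or.inr (Or.inr (Or.inr (Or.inl ⟨c, h1, h3⟩)))
      · rw [hbs] at h2
        exact absurd h2 (by simp [Tr.IsOrd])
    · exact Or.inr (Or.inr (Or.inr (Or.inr ⟨_, _, h1, h2⟩)))

theorem sd_ee {k : O} {S S' : Set (Set T)} [SOM k S S'] :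
    SD k S S' (fun e _ => EE e.fst e.snd) := by
  refine SD.congr (P := fun e _ => _) ?_ (fun e _ _ _ => (ee_iff e.fst e.snd).symm)
  apply_rules (maxDepth := 500) [SD.isOrd, SD.llt, SD.eq, SD.not, SD.and, SD.or, SD.iff, ST.id,
    ST.fst, ST.snd, ST.pr, ST.nat]

theorem mem_ees {d : O} {a b : T} : rel (EEs d) a b ↔ a ∈ D (Iio d) ∧ b ∈ D (Iio d) ∧ EE a b := by
  constructor
  · rintro ⟨a', ha, b', hb, h1, h2⟩
    simp only [Tr.pr.injEq] at h1
    obtain ⟨rfl, rfl⟩ := h1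
    exact ⟨ha, hb, h2⟩
  · rintro ⟨ha, hb, h⟩
    exact ⟨a, ha, b, hb, rfl, h⟩

theorem thm (hCVL : G_CVL) : G_EEV := by
  obtain ⟨-, -, c3, -, -⟩ := hCVL
  refine ⟨wf, fun d b hb a h => closed hb h, cvl_enc, cvl_ord, ?_, ?_⟩
  · intro d b hb z
    constructor
    · refine c3 _ _ (fun a b => a = b ∧ a ∈ D (Iio d)) ?_ z b b ⟨rfl, hb⟩
      rintro a b ⟨rfl, ha⟩
      constructor
      · intro a' h
        obtain ⟨h1, -, h2⟩ := mem_ees.1 h
        exact ⟨a', h2, rfl, h1⟩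
      · intro b' h
        exact ⟨b', mem_ees.2 ⟨closed ha h, ha, h⟩, rfl, closed ha h⟩
    · refine c3 _ _ (fun a b => a = b ∧ a ∈ D (Iio d)) ?_ z b b ⟨rfl, hb⟩
      rintro a b ⟨rfl, ha⟩
      constructor
      · intro b' h
        exact ⟨b', mem_ees.2 ⟨closed ha h, ha, h⟩, rfl, closed ha h⟩
      · intro a' h
        obtain ⟨h1, -, h2⟩ := mem_ees.1 h
        exact ⟨a', h2, rfl, h1⟩
  · intro k S S' hs
    have := hs
    refine ⟨sd_ee, fun d hd => ?_⟩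
    have h1 : EEs d ∈ S' := by
      have h2 : {p : T | p ∈ D (Iio d) ∧ (p = .pr p.fst p.snd ∧ EE p.fst p.snd)} ∈ S' := by
        refine SOM.sep (k := k) (S := S) (S' := S') ?_ hd
        exact SD.and (SD.eq ST.id (ST.pr (ST.fst ST.id) (ST.snd ST.id))) sd_ee
      convert h2 using 1
      ext p
      constructor
      · rintro ⟨a, ha, b, hb, rfl, h⟩
        exact ⟨pr_mem.2 ⟨ha, hb⟩, rfl, h⟩
      · rintro ⟨h3, h4, h5⟩
        exact ⟨p.fst, fst_mem h3, p.snd, snd_mem h3, h4, h5⟩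
    refine ⟨h1, hs.sub h1, fun Y _ hY => ?_⟩
    obtain ⟨y, hy, hmin⟩ := wf.has_min Y hY
    exact ⟨y, hy, fun z hz h => hmin z hz (mem_ees.1 h).2.2⟩

end Pool.Agent.Helper17.OD.PkEEV
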