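import Pool.Agent.Helper97.OD.EL3

/-! # Project OD (MP_064283_lc), packet EL2: (M2), (M3) are inherited -/

namespace Pool.Agent.Helper17.OD.PkEL2

open Set Pool.Agent.Helper17.OD.PkEL6 Pool.Agent.Helper17.OD.PkEL3

/-- The formula: coded subsets of `D (Iio d)`, `d < e`, have codes below `e`. -/
def CndF (a : O) (e : T) : Prop :=
  ∀ d ∈ D (Iio a), (d.IsOrd ∧ d.lt e) → ∀ t ∈ D (Iio a),
    (∀ p ∈ D (Iio a), MemD p t → InD d p) →
    ∃ s ∈ D (Iio a), InD e s ∧ ∀ p ∈ D (Iio a), (MemD p t ↔ MemD p s)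

theorem cndF_iff {a μ : O} (hμ : μ < a) : CndF a (.ord μ) ↔
    ∀ d < μ, ∀ t ∈ D (Iio a), dec t ⊆ D (Iio d) → ∃ s ∈ D (Iio μ), dec t = dec s := by
  constructor
  · intro h d hd t ht hsub
    have hda : d < a := hd.trans hμ
    obtain ⟨s, hs, ⟨μ', hμ', h1⟩, h2⟩ := h (.ord d) (ord_mem.2 hda) ⟨trivial, hd⟩ t ht
      (fun p _ hpt => ⟨d, rfl, hsub ((memD_iff _ _).1 hpt)⟩)
    obtain rfl : μ = μ' := by injection hμ'
    refine ⟨s, h1, ?_⟩
    ext p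
    constructor
    · intro hp
      exact (memD_iff _ _).1 ((h2 p (dec_sub ht hp)).1 ((memD_iff _ _).2 hp))
    · intro hp
      exact (memD_iff _ _).1 ((h2 p (dec_sub hs hp)).2 ((memD_iff _ _).2 hp))
  · intro h dd hdd hd1 t ht hsub
    obtain ⟨d, hd, rfl⟩ := isOrd_lt hd1
    obtain ⟨s, hs, he⟩ := h d hd t ht (by
      intro p hp
      obtain ⟨d', hd', h3⟩ := hsub p (dec_sub ht hp) ((memD_iff _ _).2 hp)
      obtain rfl : d = d' := by injection hd'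
      exact h3)
    refine ⟨s, D_mono (Iio_subset_Iio hμ.le) hs, ⟨μ, rfl, hs⟩, fun p _ => ?_⟩
    rw [memD_iff, memD_iff, he]

theorem cnd_def (hTTC : G_TTC) (hTDC : G_TDC) (hTDC2 : G_TDC2) : TDef CndF := by
  have hmem := memD_def hTTC hTDC
  obtain ⟨t1, t2, t3, t4, t5, t6, t7⟩ := hTTC
  obtain ⟨d1, d2, d3, d4, d5, d6, d7, d8, d9, d10, d11, d12, d13, d14, d15⟩ := hTDC
  obtain ⟨i1, i2, i3, i4, i5, i6⟩ := hTDC2
  unfold CndF
  repeat' first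
    | apply d11 | apply d12 | apply hmem | apply i1 | apply d10 | apply d7 | apply d9 | apply d1
    | apply d2 | apply d3 | apply t6 | apply t5 | apply t4 | apply t1

theorem thm (hTTC : G_TTC) (hTDC : G_TDC) (hTDC2 : G_TDC2) : G_EL2 := by
  intro w₀ κ₀ θ w κ γ f hE _ _ μ hμ hyp
  obtain ⟨c, hc⟩ := cnd_def hTTC hTDC hTDC2
  have hfμ : f μ < θ := hE.rng μ hμ
  have he : (Tr.ord μ : T) ∈ D (Iio γ) := ord_mem.2 hμ
  have he' : (Tr.ord (f μ) : T) ∈ D (Iio θ) := ord_mem.2 hfμ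
  rw [← cndF_iff hμ, ← hc γ _ he, hE.tru c _ he]
  exact (hc θ _ he').2 ((cndF_iff hfμ).2 hyp)

end Pool.Agent.Helper17.OD.PkEL2
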