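import Pool.Agent.Helper97.OD.EL6

/-! # Project OD (MP_064283_lc), packet EL3: regularity is inherited -/

namespace Pool.Agent.Helper17.OD.PkEL3

open Set Pool.Agent.Helper17.OD.PkEL6

theorem memD_def (hTTC : G_TTC) (hTDC : G_TDC) : ∀ p t, TT p → TT t →
    TDef (fun _ e => MemD (p e) (t e)) := by
  obtain ⟨t1, t2, t3, t4, t5, t6, t7⟩ := hTTC
  obtain ⟨d1, d2, d3, d4, d5, d6, d7, d8, d9, d10, d11, d12, d13, d14, d15⟩ := hTDC
  intro p t hp ht
  unfold MemD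
  repeat' first
    | exact hp | exact ht | apply d7 | apply d14 | apply d1 | apply t6 | apply t5 | apply t4

theorem reg_def (hTTC : G_TTC) (hTDC : G_TDC) (hTDC2 : G_TDC2) : TDef RegF := by
  have hmem := memD_def hTTC hTDC
  obtain ⟨t1, t2, t3, t4, t5, t6, t7⟩ := hTTC
  obtain ⟨d1, d2, d3, d4, d5, d6, d7, d8, d9, d10, d11, d12, d13, d14, d15⟩ := hTDC
  obtain ⟨i1, i2, i3, i4, i5, i6⟩ := hTDC2
  unfold RegF
  repeat' first
    | apply d11 | apply d12 | apply hmem | apply i1 | apply d7 | apply d9 | apply d1 | apply d2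
    | apply d3 | apply t6 | apply t5 | apply t4 | apply t1

theorem thm (hTTC : G_TTC) (hTDC : G_TDC) (hTDC2 : G_TDC2) : G_EL3 := by
  intro w₀ κ₀ θ w κ γ f hE _ _ μ hμ
  obtain ⟨c, hc⟩ := reg_def hTTC hTDC hTDC2
  have hfμ : f μ < θ := hE.rng μ hμ
  have he : (Tr.ord μ : T) ∈ D (Iio γ) := ord_mem.2 hμ
  have he' : (Tr.ord (f μ) : T) ∈ D (Iio θ) := ord_mem.2 hfμ
  rw [← regF_iff hμ, ← regF_iff hfμ, ← hc γ _ he, ← hc θ _ he', hE.tru c _ he]
  rfl

end Pool.Agent.Helper17.OD.PkEL3
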