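import Pool.Agent.Helper17.OD.GoalsGM

/-! # Project OD (MP_064283_lc), packet EL6: (M6) is inherited -/

namespace Pool.Agent.Helper17.OD.PkEL6

open Set

/-- Membership in a coded set, with tree arguments. -/
def MemD (p t : T) : Prop :=
  TruT t.fst t.snd.fst (.pr p t.snd.snd) ∧ t = .pr t.fst (.pr t.snd.fst t.snd.snd)

theorem memD_iff (p t : T) : MemD p t ↔ p ∈ dec t := by
  constructor
  · rintro ⟨⟨b, c, h1, h2, h3, h4⟩, h5⟩
    refine ⟨b, c, t.snd.snd, ?_, (pr_mem.1 h3).2, (pr_mem.1 h3).1, h4⟩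
    rw [← h1, ← h2]
    exact h5
  · rintro ⟨b, φ, v, rfl, h1, h2, h3⟩
    exact ⟨⟨b, φ, rfl, rfl, pr_mem.2 ⟨h2, h1⟩, h3⟩, rfl⟩

/-- Elements of `dec t` lie below the level of `t`. -/
theorem dec_sub {a : O} {t p : T} (ht : t ∈ D (Iio a)) (hp : p ∈ dec t) : p ∈ D (Iio a) := by
  obtain ⟨b, φ, v, rfl, h1, h2, h3⟩ := hp
  have hb : b < a := ht (by simp [Tr.leaves])
  exact D_mono (Iio_subset_Iio hb.le) h2

/-- The formula for regularity. -/
def RegF (a : O) (e : T) : Prop :=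
  ∀ d ∈ D (Iio a), (d.IsOrd ∧ d.lt e) → ∀ t ∈ D (Iio a),
    (∀ p ∈ D (Iio a), MemD p t → (p = .pr p.fst p.snd ∧ InD d p.fst ∧ p.snd.IsOrd ∧ InD e p.snd)) →
    (∀ x ∈ D (Iio a), InD d x → ∃ y ∈ D (Iio a), MemD (.pr x y) t) →
    (∀ x ∈ D (Iio a), ∀ y ∈ D (Iio a), ∀ z ∈ D (Iio a), MemD (.pr x y) t → MemD (.pr x z) t →
      y = z) →
    ∃ b ∈ D (Iio a), (b.IsOrd ∧ b.lt e) ∧ ∀ x ∈ D (Iio a), ∀ y ∈ D (Iio a), MemD (.pr x y) t →
      InD b y

theorem isOrd_lt {x : T} {μ : O} (h : x.IsOrd ∧ x.lt (.ord μ)) : ∃ d < μ, x = .ord d := by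
  cases x with
  | nat n => exact absurd h.1 (by simp [Tr.IsOrd])
  | pr s t => exact absurd h.1 (by simp [Tr.IsOrd])
  | ord d => exact ⟨d, h.2, rfl⟩

theorem regF_iff {a μ : O} (hμ : μ < a) : RegF a (.ord μ) ↔ MReg (Con a) μ := by
  classical
  constructor
  · intro h d hd g hg hgr
    obtain ⟨t, ht, hgt⟩ := hgr
    have hda : d < a := hd.trans hμ
    obtain ⟨b, hb, hb1, hb2⟩ := h (.ord d) (ord_mem.2 hda) ⟨trivial, hd⟩ t ht
      (by
        intro p hp hpt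
        rw [memD_iff, ← hgt] at hpt
        obtain ⟨x, hx, rfl⟩ := hpt
        exact ⟨rfl, ⟨d, rfl, hx⟩, (hg x hx).1, ⟨μ, rfl, (hg x hx).2⟩⟩)
      (by
        rintro x hx ⟨d', hd', hx'⟩
        obtain rfl : d = d' := by injection hd'
        refine ⟨g x, D_mono (Iio_subset_Iio hμ.le) (hg x hx').2, ?_⟩
        rw [memD_iff, ← hgt]
        exact ⟨x, hx', rfl⟩)
      (by
        intro x hx y hy z hz h1 h2
        rw [memD_iff, ← hgt] at h1 h2
        obtain ⟨x1, hx1, e1⟩ := h1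
        obtain ⟨x2, hx2, e2⟩ := h2
        injection e1 with e11 e12
        injection e2 with e21 e22
        rw [e12, e22, ← e11, ← e21])
    obtain ⟨b', hb', rfl⟩ := isOrd_lt hb1
    refine ⟨b', hb', fun x hx => ?_⟩
    obtain ⟨b'', hb'', h3⟩ := hb2 x (D_mono (Iio_subset_Iio hda.le) hx) (g x)
      (D_mono (Iio_subset_Iio hμ.le) (hg x hx).2) (by
        rw [memD_iff, ← hgt]
        exact ⟨x, hx, rfl⟩)
    obtain rfl : b' = b'' := by injection hb''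
    exact h3
  · intro h dd hdd hd1 t ht h1 h2 h3
    obtain ⟨d, hd, rfl⟩ := isOrd_lt hd1
    have hda : d < a := hd.trans hμ
    -- the function coded by `t`
    have h2' : ∀ x ∈ D (Iio d), ∃ y, Tr.pr x y ∈ dec t := by
      intro x hx
      obtain ⟨y, -, hy⟩ := h2 x (D_mono (Iio_subset_Iio hda.le) hx) ⟨d, rfl, hx⟩
      exact ⟨y, (memD_iff _ _).1 hy⟩
    let g : T → T := fun x => if hx : x ∈ D (Iio d) then (h2' x hx).choose else .nat 0
    have hg : ∀ x (hx : x ∈ D (Iio d)), Tr.pr x (g x) ∈ dec t := by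
      intro x hx
      have : g x = (h2' x hx).choose := dif_pos hx
      rw [this]
      exact (h2' x hx).choose_spec
    have hval : ∀ x y, Tr.pr x y ∈ dec t → x ∈ D (Iio d) ∧ y.IsOrd ∧ y ∈ D (Iio μ) := by
      intro x y hxy
      obtain ⟨-, ⟨d', hd', h5⟩, h6, ⟨μ', hμ', h7⟩⟩ :=
        h1 _ (dec_sub ht hxy) ((memD_iff _ _).2 hxy)
      obtain rfl : d = d' := by injection hd'
      obtain rfl : μ = μ' := by injection hμ'
      exact ⟨h5, h6, h7⟩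
    have hfun : ∀ x y, Tr.pr x y ∈ dec t → y = g x := by
      intro x y hxy
      have hx := (hval x y hxy).1
      have h8 := hg x hx
      have hxy' := dec_sub ht hxy
      have hg' := dec_sub ht h8
      exact h3 x (pr_mem.1 hxy').1 y (pr_mem.1 hxy').2 (g x) (pr_mem.1 hg').2
        ((memD_iff _ _).2 hxy) ((memD_iff _ _).2 h8)
    obtain ⟨b, hb, hb2⟩ := h d hd g (fun x hx => (hval x _ (hg x hx)).2) ⟨t, ht, by
      ext p
      constructor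
      · rintro ⟨x, hx, rfl⟩
        exact hg x hx
      · intro hp
        obtain ⟨hp1, -⟩ := h1 p (dec_sub ht hp) ((memD_iff _ _).2 hp)
        rw [hp1] at hp
        refine ⟨p.fst, (hval _ _ hp).1, ?_⟩
        rw [← hfun _ _ hp]
        exact hp1⟩
    refine ⟨.ord b, ord_mem.2 (hb.trans hμ), ⟨trivial, hb⟩, fun x hx y hy hxy => ?_⟩
    rw [memD_iff] at hxy
    have h9 := hfun x y hxy
    exact ⟨b, rfl, h9 ▸ hb2 x (hval x y hxy).1⟩

/-- The whole formula. -/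
def Fm (a : O) (e : T) : Prop :=
  ∃ y ∈ D (Iio a), (y.IsOrd ∧ e.fst.lt y ∧ y.lt e.snd) ∧
    ((∃ x ∈ D (Iio a), x.IsOrd ∧ x.lt y) ∧
      ∀ x ∈ D (Iio a), (x.IsOrd ∧ x.lt y) → ∃ z ∈ D (Iio a), z.IsOrd ∧ x.lt z ∧ z.lt y) ∧
    RegF a y

theorem fm_iff {a d κ : O} (hκ : κ < a) : Fm a (.pr (.ord d) (.ord κ)) ↔
    ∃ η, d < η ∧ η < κ ∧ Order.IsSuccLimit η ∧ MReg (Con a) η := by
  constructor
  · rintro ⟨y, hy, ⟨h1, h2, h3⟩, ⟨⟨x, hx, h4⟩, h5⟩, h6⟩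
    obtain ⟨η, hη, rfl⟩ := isOrd_lt ⟨h1, h3⟩
    have hηa : η < a := hη.trans hκ
    refine ⟨η, h2, hη, ?_, (regF_iff hηa).1 h6⟩
    refine ⟨?_, ?_⟩
    · obtain ⟨x', hx', rfl⟩ := isOrd_lt h4
      intro hmin
      exact absurd (hmin hx'.le) (not_le.2 hx')
    · intro b hb
      obtain ⟨z, hz, h7, h8, h9⟩ := h5 (.ord b) (ord_mem.2 (hb.1.trans hηa)) ⟨trivial, hb.1⟩
      obtain ⟨z', hz', rfl⟩ := isOrd_lt ⟨h7, h9⟩
      exact hb.2 h8 h9
  · rintro ⟨η, h1, h2, h3, h4⟩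
    have hηa : η < a := h2.trans hκ
    refine ⟨.ord η, ord_mem.2 hηa, ⟨trivial, h1, h2⟩, ⟨?_, ?_⟩, (regF_iff hηa).2 h4⟩
    · exact ⟨.ord d, ord_mem.2 (h1.trans hηa), trivial, h1⟩
    · intro x hx h5
      obtain ⟨x', hx', rfl⟩ := isOrd_lt h5
      have := h3.succ_lt hx'
      exact ⟨.ord (Order.succ x'), ord_mem.2 (this.trans hηa), trivial, Order.lt_succ x', this⟩

theorem fm_def (hTTC : G_TTC) (hTDC : G_TDC) (hTDC2 : G_TDC2) : TDef Fm := by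
  obtain ⟨t1, t2, t3, t4, t5, t6, t7⟩ := hTTC
  obtain ⟨d1, d2, d3, d4, d5, d6, d7, d8, d9, d10, d11, d12, d13, d14, d15⟩ := hTDC
  obtain ⟨i1, i2, i3, i4, i5, i6⟩ := hTDC2
  have hmem : ∀ p t, TT p → TT t → TDef (fun _ e => MemD (p e) (t e)) := by
    intro p t hp ht
    unfold MemD
    repeat' first
      | exact hp | exact ht | apply d7 | apply d14 | apply d1 | apply t6 | apply t5 | apply t4
  unfold Fm RegF
  repeat' first
    | apply d11 | apply d12 | apply hmem | apply i1 | apply d7 | apply d9 | apply d1 | apply d2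
    | apply d3 | apply t6 | apply t5 | apply t4 | apply t1

theorem thm (hTTC : G_TTC) (hTDC : G_TDC) (hTDC2 : G_TDC2) : G_EL6 := by
  intro w₀ κ₀ θ w κ γ f hE _ _ hreg d hd
  obtain ⟨c, hc⟩ := fm_def hTTC hTDC hTDC2
  have hκγ := hE.hk.1
  have hdγ : d < γ := hd.trans hκγ
  have hfd : f d < κ₀ := by
    rw [← hE.hk.2]
    exact hE.mono hdγ hκγ hd
  have hκθ : κ₀ < θ := by
    rw [← hE.hk.2]
    exact hE.rng κ hκγ
  have h1 := (fm_iff (d := f d) hκθ).2 (hreg (f d) hfd)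
  have he : (Tr.pr (.ord d) (.ord κ) : T) ∈ D (Iio γ) := pr_mem.2 ⟨ord_mem.2 hdγ, ord_mem.2 hκγ⟩
  have he' : (Tr.pr (.ord (f d)) (.ord κ₀) : T) ∈ D (Iio θ) :=
    pr_mem.2 ⟨ord_mem.2 (hfd.trans hκθ), ord_mem.2 hκθ⟩
  have h2 := (hc θ _ he').2 h1
  have h3 : (Tr.pr (.ord (f d)) (.ord κ₀) : T) = Tr.map f (.pr (.ord d) (.ord κ)) := by
    simp only [Tr.map, hE.hk.2]
  rw [h3, ← hE.tru c _ he] at h2
  exact (fm_iff hκγ).1 ((hc γ _ he).1 h2)

end Pool.Agent.Helper17.OD.PkEL6
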