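import Pool.Agent.Helper17.OD.GoalsWM

/-! # Project OD (MP_064283_lc), packet FB1: few small fibres -/

namespace Pool.Agent.Helper17.OD.PkFB1

open Set

theorem rank_mono {R : Set T} {ρ : T → O}
    (hρ : ∀ (x : T) (a : O), a < ρ x ↔ ∃ y, Tr.pr y x ∈ R ∧ a ≤ ρ y) {e : O → T} {E : Set O}
    (he : ∀ x ∈ E, ∀ s, Tr.pr s (e x) ∈ R ↔ ∃ x' ∈ E, x' < x ∧ s = e x') {x x' : O}
    (hx : x ∈ E) (hx' : x' ∈ E) (h : x' < x) : ρ (e x') < ρ (e x) :=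
  (hρ _ _).2 ⟨e x', (he x hx _).2 ⟨x', hx', h, rfl⟩, le_rfl⟩

theorem rank_lt {R : Set T} {ρ : T → O}
    (hρ : ∀ (x : T) (a : O), a < ρ x ↔ ∃ y, Tr.pr y x ∈ R ∧ a ≤ ρ y) {e : O → T} {E : Set O}
    (he : ∀ x ∈ E, ∀ s, Tr.pr s (e x) ∈ R ↔ ∃ x' ∈ E, x' < x ∧ s = e x') {l : O}
    (hl : ¬ TyGe E l) {x : O} (hx : x ∈ E) : ρ (e x) < l := by
  by_contra hlt
  rw [not_lt] at hlt
  have key : ∀ x ∈ E, ∀ i < ρ (e x), ∃ x' ∈ E, ρ (e x') = i := by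
    intro x
    induction x using WellFoundedLT.induction with
    | ind x ih =>
      intro hx i hi
      obtain ⟨s, hs, hsi⟩ := (hρ _ _).1 hi
      obtain ⟨x', hx', hlt', rfl⟩ := (he x hx s).1 hs
      rcases eq_or_lt_of_le hsi with h | h
      · exact ⟨x', hx', h.symm⟩
      · exact ih x' hlt' hx' i h
  choose! g hg1 hg2 using fun i (hi : i < l) => key x hx i (lt_of_lt_of_le hi hlt)
  refine hl ⟨g, ?_, hg1⟩
  intro i hi j hj hij
  by_contra hle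
  rw [not_lt] at hle
  have h1 : ρ (e (g j)) ≤ ρ (e (g i)) := by
    rcases eq_or_lt_of_le hle with h | h
    · rw [h]
    · exact (rank_mono hρ he (hg1 i hi) (hg1 j hj) h).le
  rw [hg2 i hi, hg2 j hj] at h1
  exact absurd hij (not_lt.2 h1)

theorem mem_gr {A : Set T} {f : T → T} {a b : T} : Tr.pr a b ∈ gr A f ↔ a ∈ A ∧ b = f a := by
  constructor
  · rintro ⟨x, hx, h⟩
    injection h with h1 h2
    subst h1
    exact ⟨hx, h2⟩
  · rintro ⟨h, rfl⟩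
    exact ⟨a, h, rfl⟩

theorem thm (hRNK : G_RNK) : G_FB1 := by
  intro k S S' hSom U hU hUp l hl w hw hA hF
  have hs : SOM k S S := SOM.self (h := hSom)
  obtain ⟨d, hd, hUd⟩ := hs.bdd U hU
  -- the first relation
  let A : Set O := {x | ∃ y, Tr.pr (.ord x) (.ord y) ∈ U}
  let R1 : Set T := {p | p ∈ D (Iio d) ∧ (p = .pr p.fst p.snd ∧ p.fst.llt p.snd ∧
    (∃ y ∈ D (Iio k), Tr.pr p.fst y ∈ U) ∧ ∃ y ∈ D (Iio k), Tr.pr p.snd y ∈ U)}
  have hR1 : R1 ∈ S := by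
    refine SOM.sep (k := k) (S := S) (S' := S) ?_ hd
    apply_rules (maxDepth := 500) [SD.exT, SD.allT, SD.llt, SD.mem, SD.eq, SD.and, ST.id, ST.fst, ST.snd, ST.pr,
      SV.par]
  have hfst : ∀ s, (∃ y ∈ D (Iio k), Tr.pr s y ∈ U) ↔ ∃ x ∈ A, s = .ord x := by
    intro s
    constructor
    · rintro ⟨y, hy, h⟩
      obtain ⟨x, y', h'⟩ := hUp _ h
      injection h' with h1 h2
      subst h1 h2
      exact ⟨x, ⟨y', h⟩, rfl⟩
    · rintro ⟨x, ⟨y, h⟩, rfl⟩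
      exact ⟨.ord y, D_mono (Iio_subset_Iio hd.le) (pr_mem.1 (hUd h)).2, h⟩
  have he1 : ∀ x ∈ A, ∀ s, Tr.pr s (.ord x) ∈ R1 ↔ ∃ x' ∈ A, x' < x ∧ s = .ord x' := by
    intro x hx s
    constructor
    · rintro ⟨-, -, h1, h2, -⟩
      obtain ⟨x', hx', h3⟩ := (hfst s).1 h2
      subst h3
      exact ⟨x', hx', h1, rfl⟩
    · rintro ⟨x', hx', h1, rfl⟩
      refine ⟨?_, rfl, h1, (hfst _).2 ⟨x', hx', rfl⟩, (hfst _).2 ⟨x, hx, rfl⟩⟩
      obtain ⟨y, hy⟩ := hx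
      obtain ⟨y', hy'⟩ := hx'
      exact pr_mem.2 ⟨(pr_mem.1 (hUd hy')).1, (pr_mem.1 (hUd hy)).1⟩
  obtain ⟨-, ρ1, -, -, -, hρ1, -, hg1⟩ := hRNK k S S hs R1 hR1 (by
    intro Y hY hYne
    by_cases h : ∃ x : O, Tr.ord x ∈ Y
    · obtain ⟨x, hx, hmin⟩ := (wellFounded_lt (α := O)).has_min {x | Tr.ord x ∈ Y} h
      refine ⟨.ord x, hx, fun z hz hR => ?_⟩
      obtain ⟨-, -, h1, h2, -⟩ := hR
      obtain ⟨x', hx', h3⟩ := (hfst z).1 h2
      subst h3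
      exact hmin x' hz h1
    · obtain ⟨y, hy⟩ := hYne
      refine ⟨y, hy, fun z hz hR => ?_⟩
      obtain ⟨-, -, h1, -, h2⟩ := hR
      obtain ⟨x', hx', h3⟩ := (hfst y).1 h2
      subst h3
      exact h ⟨x', hy⟩)
  -- the second relation
  let R2 : Set T := {p | p ∈ D (Iio d) ∧ (p = .pr p.fst p.snd ∧ p.fst ∈ U ∧ p.snd ∈ U ∧
    p.fst.fst = p.snd.fst ∧ p.fst.snd.llt p.snd.snd)}
  have hR2 : R2 ∈ S := by
    refine SOM.sep (k := k) (S := S) (S' := S) ?_ hd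
    apply_rules (maxDepth := 500) [SD.exT, SD.allT, SD.llt, SD.mem, SD.eq, SD.and, ST.id, ST.fst, ST.snd, ST.pr,
      SV.par]
  have he2 : ∀ x : O, ∀ y ∈ {y | Tr.pr (.ord x) (.ord y) ∈ U}, ∀ s,
      Tr.pr s (.pr (.ord x) (.ord y)) ∈ R2 ↔ ∃ y' ∈ {y | Tr.pr (.ord x) (.ord y) ∈ U},
        y' < y ∧ s = .pr (.ord x) (.ord y') := by
    intro x y hy s
    constructor
    · rintro ⟨-, -, h1, -, h3, h4⟩
      obtain ⟨x', y', h5⟩ := hUp _ h1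
      simp only [Tr.fst, Tr.snd] at h1 h3 h4 h5
      subst h5
      simp only at h3 h4
      injection h3 with h3
      subst h3
      exact ⟨y', h1, h4, rfl⟩
    · rintro ⟨y', hy', h1, rfl⟩
      exact ⟨pr_mem.2 ⟨hUd hy', hUd hy⟩, rfl, hy', hy, rfl, h1⟩
  obtain ⟨-, ρ2, -, -, -, hρ2, -, hg2⟩ := hRNK k S S hs R2 hR2 (by
    intro Y hY hYne
    by_cases h : ∃ y : O, ∃ x : O, Tr.pr (.ord x) (.ord y) ∈ Y
    · obtain ⟨y, ⟨x, hx⟩, hmin⟩ := (wellFounded_lt (α := O)).has_min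
        {y | ∃ x : O, Tr.pr (.ord x) (.ord y) ∈ Y} h
      refine ⟨_, hx, fun z hz hR => ?_⟩
      obtain ⟨-, -, h1, h2, h3, h4⟩ := hR
      obtain ⟨x', y', h5⟩ := hUp _ h1
      simp only [Tr.fst, Tr.snd] at h1 h3 h4 h5
      subst h5
      exact hmin y' ⟨x', hz⟩ h4
    · obtain ⟨y, hy⟩ := hYne
      refine ⟨y, hy, fun z hz hR => ?_⟩
      obtain ⟨-, -, h1, h2, -⟩ := hR
      obtain ⟨x', y', h5⟩ := hUp _ h2
      simp only [Tr.snd] at h5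
      subst h5
      exact h ⟨y', x', hy⟩)
  -- the function
  have hlw : max l w < k := max_lt hl hw
  let G : Set T := {p | p ∈ D (Iio (max (max l w) d)) ∧ ∃ x ∈ D (Iio k), Tr.pr x p.snd ∈ U ∧
    Tr.pr x p.fst.fst ∈ gr (D (Iio d)) (fun x => .ord (ρ1 x)) ∧
    Tr.pr (.pr x p.snd) p.fst.snd ∈ gr (D (Iio d)) (fun x => .ord (ρ2 x)) ∧
    p = .pr (.pr p.fst.fst p.fst.snd) p.snd}
  have hG : G ∈ S := by
    refine SOM.sep (k := k) (S := S) (S' := S) ?_ (max_lt hlw hd)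
    have h1 := hg1 d hd
    have h2 := hg2 d hd
    apply_rules (maxDepth := 500) [SD.exT, SD.allT, SD.llt, SD.mem, SD.eq, SD.and, ST.id, ST.fst, ST.snd, ST.pr,
      SV.par]
  have hGi : ∀ p, p ∈ G ↔ ∃ x y : O, Tr.pr (.ord x) (.ord y) ∈ U ∧
      p = .pr (.pr (.ord (ρ1 (.ord x))) (.ord (ρ2 (.pr (.ord x) (.ord y))))) (.ord y) := by
    intro p
    constructor
    · rintro ⟨-, x, hx, h1, h2, h3, h4⟩
      obtain ⟨x', y', h5⟩ := hUp _ h1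
      injection h5 with h5 h6
      rw [mem_gr] at h2 h3
      refine ⟨x', y', ?_, ?_⟩
      · rw [← h5, ← h6]
        exact h1
      · rw [h4, h2.2, h3.2, h6, h5]
    · rintro ⟨x, y, h1, rfl⟩
      have hxy := hUd h1
      have b1 : ρ1 (.ord x) < l := rank_lt hρ1 he1 hA ⟨y, h1⟩
      have b2 : ρ2 (.pr (.ord x) (.ord y)) < w :=
        rank_lt (e := fun y => .pr (.ord x) (.ord y)) hρ2 (he2 x) (hF x) h1
      refine ⟨?_, .ord x, D_mono (Iio_subset_Iio hd.le) (pr_mem.1 hxy).1, h1, ?_, ?_, rfl⟩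
      · refine pr_mem.2 ⟨pr_mem.2 ⟨ord_mem.2 ?_, ord_mem.2 ?_⟩, ord_mem.2 ?_⟩
        · exact lt_of_lt_of_le b1 ((le_max_left _ _).trans (le_max_left _ _))
        · exact lt_of_lt_of_le b2 ((le_max_right _ _).trans (le_max_left _ _))
        · have hyd : y < d := (ord_mem (A := Iio d)).1 (pr_mem.1 hxy).2
          exact lt_of_lt_of_le hyd (le_max_right _ _)
      · exact mem_gr.2 ⟨(pr_mem.1 hxy).1, rfl⟩
      · exact mem_gr.2 ⟨hxy, rfl⟩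
  refine ⟨G, hG, ?_, ?_, ?_⟩
  · intro p hp
    obtain ⟨x, y, h1, rfl⟩ := (hGi p).1 hp
    have b1 : ρ1 (.ord x) < l := rank_lt hρ1 he1 hA ⟨y, h1⟩
    have b2 : ρ2 (.pr (.ord x) (.ord y)) < w :=
      rank_lt (e := fun y => .pr (.ord x) (.ord y)) hρ2 (he2 x) (hF x) h1
    exact ⟨_, pr_mem.2 ⟨ord_mem.2 (lt_of_lt_of_le b1 (le_max_left _ _)),
      ord_mem.2 (lt_of_lt_of_le b2 (le_max_right _ _))⟩, x, y, h1, rfl⟩
  · intro c t t' h1 h2
    obtain ⟨x, y, g1, g2⟩ := (hGi _).1 h1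
    obtain ⟨x', y', g1', g2'⟩ := (hGi _).1 h2
    injection g2 with g2 g3
    injection g2' with g2' g3'
    rw [g2] at g2'
    injection g2' with g4 g5
    injection g4 with g4
    injection g5 with g5
    have hxx : x = x' := by
      rcases lt_trichotomy x x' with h | h | h
      · exact absurd g4 (rank_mono hρ1 he1 ⟨y', g1'⟩ ⟨y, g1⟩ h).ne
      · exact h
      · exact absurd g4 (rank_mono hρ1 he1 ⟨y, g1⟩ ⟨y', g1'⟩ h).ne'
    subst hxx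
    have hyy : y = y' := by
      rcases lt_trichotomy y y' with h | h | h
      · exact absurd g5 (rank_mono (e := fun y => .pr (.ord x) (.ord y)) hρ2 (he2 x) g1' g1 h).ne
      · exact h
      · exact absurd g5 (rank_mono (e := fun y => .pr (.ord x) (.ord y)) hρ2 (he2 x) g1 g1' h).ne'
    rw [g3, g3', hyy]
  · intro x y h
    exact ⟨_, (hGi _).2 ⟨x, y, h, rfl⟩⟩

end Pool.Agent.Helper17.OD.PkFB1
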