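import Pool.Agent.Helper17.OD.GoalsWM

/-! # Project OD (MP_064283_lc), packet HR2: Hartogs for sets of trees -/

namespace Pool.Agent.Helper17.OD.PkHR2

open Set

/-- From codes of pairs to pairs. -/
def Rf (W : Set Z) (z y : Z) : Prop := ∃ a ∈ W, ∃ x ∈ W,
  z = ZFSet.pair (zn 2) (ZFSet.pair a (ZFSet.pair (zn 1) x)) ∧ y = ZFSet.pair a x

theorem dp_rf {W : Set Z} [ZM W] : DP W W (fun v => Rf W (v 0) (v 1)) := by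
  unfold Rf
  apply_rules (maxDepth := 500) [DP.ex, DP.and, DP.eq, DT.pair, DT.nat, DT.var]

theorem rf_iff {W : Set Z} {c : T} {ξ : O} {y : Z} (hc : enc c ∈ W) (hξ : ξ.toZFSet ∈ W) :
    Rf W (enc (.pr c (.ord ξ))) y ↔ y = ZFSet.pair (enc c) ξ.toZFSet := by
  constructor
  · rintro ⟨a, -, x, -, h1, h2⟩
    simp only [enc, ZFSet.pair_inj, true_and] at h1
    rw [h2, h1.1, h1.2]
  · intro h
    exact ⟨enc c, hc, ξ.toZFSet, hξ, rfl, h⟩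

theorem thm (hENC : G_ENC) (hWCS : G_WCS) (hHRT : G_HRT) : G_HR2 := by
  intro W κ hz hκ μ hμ
  have := hz
  obtain ⟨e1, -, -, -, -, e6⟩ := hENC
  obtain ⟨-, -, hmem⟩ := e6 W κ hz hκ
  obtain ⟨s, hs, hsE⟩ := (hWCS W κ hz hκ).1 μ hμ
  obtain ⟨l, hl, hlh⟩ := hHRT W κ hz hκ s hs.1
  refine ⟨l, hl, fun G hG E h1 h2 h3 => ?_⟩
  obtain ⟨⟨d, hd, hGd⟩, A, hA, hAG⟩ := hG
  have hW : ∀ c ξ, Tr.pr c (.ord ξ) ∈ G → enc c ∈ W ∧ ξ.toZFSet ∈ W := by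
    intro c ξ h
    have h4 := pr_mem.1 (hGd h)
    exact ⟨(hmem c).2 (D_mono (Iio_subset_Iio hd.le) h4.1), (hκ ξ).2 (lt_trans (ord_mem.1 h4.2) hd)⟩
  obtain ⟨h, hh, hh'⟩ := hz.repl (Rf W) dp_rf A hA (by
    intro z hzA
    obtain ⟨t, ht, rfl⟩ := (hAG z).1 hzA
    obtain ⟨c, hc, ξ, hξ, rfl⟩ := h1 t ht
    obtain ⟨w1, w2⟩ := hW c ξ ht
    exact ⟨_, ZM.pair w1 w2, (rf_iff w1 w2).2 rfl, fun y' _ h => (rf_iff w1 w2).1 h⟩)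
  have hi : ∀ y, y ∈ h ↔ ∃ c ξ, Tr.pr c (.ord ξ) ∈ G ∧ y = ZFSet.pair (enc c) ξ.toZFSet := by
    intro y
    rw [hh']
    constructor
    · rintro ⟨-, z, hzA, hR⟩
      obtain ⟨t, ht, rfl⟩ := (hAG z).1 hzA
      obtain ⟨c, hc, ξ, hξ, rfl⟩ := h1 t ht
      obtain ⟨w1, w2⟩ := hW c ξ ht
      exact ⟨c, ξ, ht, (rf_iff w1 w2).1 hR⟩
    · rintro ⟨c, ξ, ht, rfl⟩
      obtain ⟨w1, w2⟩ := hW c ξ ht
      exact ⟨ZM.pair w1 w2, _, (hAG _).2 ⟨_, ht, rfl⟩, (rf_iff w1 w2).2 rfl⟩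
  refine hlh h hh E ⟨?_, ?_, ?_⟩
  · intro p hp
    obtain ⟨c, ξ, ht, rfl⟩ := (hi p).1 hp
    obtain ⟨c', hc', ξ', hξ', e⟩ := h1 _ ht
    simp only [Tr.pr.injEq, Tr.ord.injEq] at e
    obtain ⟨rfl, rfl⟩ := e
    exact ⟨enc c, (hsE _).2 ⟨c, hc', rfl⟩, ξ, hξ', rfl⟩
  · intro a b b' hb hb'
    obtain ⟨c, ξ, ht, e⟩ := (hi _).1 hb
    obtain ⟨c', ξ', ht', e'⟩ := (hi _).1 hb'
    rw [ZFSet.pair_inj] at e e'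
    have h4 : c = c' := e1 _ _ (e.1.symm.trans e'.1)
    subst h4
    have h5 := h2 _ _ _ ht ht'
    rw [e.2, e'.2, Tr.ord.inj h5]
  · intro ξ hξ
    obtain ⟨c, hc⟩ := h3 ξ hξ
    exact ⟨enc c, (hi _).2 ⟨c, ξ, hc, rfl⟩⟩

end Pool.Agent.Helper17.OD.PkHR2
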