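import Pool.Agent.Helper17.OD.GoalsWM

/-! # Project OD (MP_064283_lc), packet HRT: Hartogs in the outer model

No collapse is needed: for each relation `r` take the least bound of the range of a function with the
relation `r`. -/

namespace Pool.Agent.Helper17.OD.PkHRT

open Set

/-- `h` is a function from a part of `s` to `w`. -/
def Fn (W : Set Z) (h s w : Z) : Prop :=
  (∀ p ∈ h, ∃ a ∈ s, ∃ x ∈ w, p = ZFSet.pair a x) ∧
  ∀ a ∈ W, ∀ b ∈ W, ∀ c ∈ W, ZFSet.pair a b ∈ h → ZFSet.pair a c ∈ h → b = c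

/-- The preorder of `h`. -/
def Pr (W : Set Z) (h p : Z) : Prop := ∃ a ∈ W, ∃ a' ∈ W, ∃ x ∈ W, ∃ x' ∈ W,
  p = ZFSet.pair a a' ∧ ZFSet.pair a x ∈ h ∧ ZFSet.pair a' x' ∈ h ∧ x ⊆ x'

/-- `r` is the preorder of `h`. -/
def Rh (W : Set Z) (r h : Z) : Prop := ∀ p ∈ W, (p ∈ r ↔ Pr W h p)

/-- The preorder `r` is induced by a function from a part of `s` to `w`. -/
def Bd (W : Set Z) (s r w : Z) : Prop := ∃ h ∈ W, Fn W h s w ∧ Rh W r h

variable {W : Set Z}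

theorem dp_fn [ZM W] : DP W W (fun v => Fn W (v 0) (v 1) (v 2)) := by
  unfold Fn
  apply_rules (maxDepth := 500) [DP.ex, DP.all, DP.bex, DP.ball, DP.and, DP.imp, DP.mem, DP.eq,
    DT.pair, DT.var]

theorem dp_pr [ZM W] : DP W W (fun v => Pr W (v 0) (v 1)) := by
  unfold Pr
  apply_rules (maxDepth := 500) [DP.ex, DP.all, DP.bex, DP.ball, DP.and, DP.imp, DP.mem, DP.eq,
    DP.sub, DT.pair, DT.var]

theorem dp_rh [ZM W] : DP W W (fun v => Rh W (v 0) (v 1)) := by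
  unfold Rh
  refine DP.all (P := fun p v => (p ∈ v 0 ↔ Pr W (v 1) p)) ?_
  exact DP.iff (DP.vmem 0 1) (DP.app2 (R := Pr W) dp_pr (DT.var 2) (DT.var 0))

theorem dp_bd [ZM W] : DP W W (fun v => Bd W (v 0) (v 1) (v 2)) := by
  unfold Bd
  refine DP.ex (P := fun h v => Fn W h (v 0) (v 2) ∧ Rh W (v 1) h) ?_
  exact DP.and (DP.app3 (R := Fn W) dp_fn (DT.var 0) (DT.var 1) (DT.var 3))
    (DP.app2 (R := Rh W) dp_rh (DT.var 2) (DT.var 0))

theorem pair_mem [hz : ZM W] {h a b : Z} (hh : h ∈ W) (hp : ZFSet.pair a b ∈ h) : a ∈ W ∧ b ∈ W :=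
  mem_of_pair (hz.trans _ hh _ hp)

theorem sub_iff {x y : O} : x.toZFSet ⊆ y.toZFSet ↔ x ≤ y := by
  constructor
  · intro h
    by_contra hlt
    have h1 := h (Ordinal.toZFSet_mem_toZFSet_iff.2 (not_le.1 hlt))
    exact absurd (Ordinal.toZFSet_mem_toZFSet_iff.1 h1) (lt_irrefl _)
  · intro h z hz
    rw [Ordinal.mem_toZFSet_iff] at hz ⊢
    obtain ⟨a, ha, rfl⟩ := hz
    exact ⟨a, lt_of_lt_of_le ha h, rfl⟩

/-- A strictly increasing map moves up. -/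
theorem le_of_mono {l : O} {g : O → O} (hg : ∀ x y, x < y → y < l → g x < g y) :
    ∀ x < l, x ≤ g x := by
  intro x
  induction x using WellFoundedLT.induction with
  | ind x ih =>
    intro hx
    by_contra hlt
    rw [not_le] at hlt
    have h1 := ih (g x) hlt (hlt.trans hx)
    have h2 := hg (g x) x hlt hx
    exact absurd h1 (not_le.2 h2)

theorem thm (hWRK : G_WRK) : G_HRT := by
  intro W κ hz hκ s hs
  have := hz
  have psW : PS W W := inferInstance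
  have hrkW : ∀ x ∈ W, (x.rank).toZFSet ∈ W := (hWRK W W hz psW).1
  have hrk : ∀ x ∈ W, x.rank < κ := fun x hx => (hκ _).1 (hrkW x hx)
  -- power sets
  obtain ⟨y1, hy1, hy1'⟩ := hz.power s hs
  obtain ⟨y2, hy2, hy2'⟩ := hz.power y1 hy1
  obtain ⟨y3, hy3, hy3'⟩ := hz.power y2 hy2
  have hpair : ∀ a ∈ s, ∀ a' ∈ s, ZFSet.pair a a' ∈ y2 := by
    intro a ha a' ha'
    have haW := hz.trans _ hs _ ha
    have haW' := hz.trans _ hs _ ha'
    rw [hy2']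
    refine ⟨ZM.pair haW haW', fun z hz' => ?_⟩
    rw [hy1']
    simp only [ZFSet.pair, ZFSet.mem_pair] at hz'
    rcases hz' with rfl | rfl
    · refine ⟨?_, fun z hz' => ?_⟩
      · have := hz.dbl a haW a haW
        have h2 : ({a, a} : Z) = {a} := by
          ext z
          simp
        rwa [h2] at this
      · rw [ZFSet.mem_singleton] at hz'
        rw [hz']
        exact ha
    · refine ⟨hz.dbl a haW a' haW', fun z hz' => ?_⟩
      rw [ZFSet.mem_pair] at hz'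
      rcases hz' with rfl | rfl
      · exact ha
      · exact ha'
  -- the preorders
  have hrel : ∀ h ∈ W, ∀ E : Set O, FunZ h s E → ∃ r ∈ y3, Rh W r h ∧
      Bd W s r (h.rank).toZFSet := by
    intro h hh E hE
    obtain ⟨r, hr, hr'⟩ := ZM.sepv (W := W) (P := fun p v => Pr W (v 0) p) (v := fun _ => h)
      (DP.app2 (R := Pr W) dp_pr (DT.var 1) (DT.var 0)) (fun _ => hh) hy2
    have h0 : Rh W r h := by
      intro p hp
      rw [hr']
      refine ⟨fun h => h.2, fun h1 => ⟨?_, h1⟩⟩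
      obtain ⟨a, -, a', -, x, -, x', -, rfl, h2, h3, -⟩ := h1
      obtain ⟨b, hb, ξ, -, e⟩ := hE.1 _ h2
      obtain ⟨b', hb', ξ', -, e'⟩ := hE.1 _ h3
      have e1 := (ZFSet.pair_inj.1 e).1
      have e2 := (ZFSet.pair_inj.1 e').1
      rw [e1, e2]
      exact hpair b hb b' hb'
    refine ⟨r, ?_, h0, h, hh, ⟨?_, ?_⟩, h0⟩
    · rw [hy3']
      exact ⟨hr, fun p hp => ((hr' p).1 hp).1⟩
    · intro p hp
      obtain ⟨a, ha, ξ, hξ, rfl⟩ := hE.1 p hp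
      refine ⟨a, ha, ξ.toZFSet, ?_, rfl⟩
      rw [Ordinal.toZFSet_mem_toZFSet_iff]
      have h1 := ZFSet.rank_lt_of_mem hp
      rw [pair_rank, Ordinal.rank_toZFSet] at h1
      refine lt_of_le_of_lt ?_ h1
      exact (le_max_right _ _).trans le_self_add
    · intro a _ b _ c _ h1 h2
      exact hE.2.1 a b c h1 h2
  -- the least bounds
  let R : Z → Z → Prop := fun r w => w.IsOrdinal ∧ Bd W s r w ∧ ∀ w' ∈ w, ¬ Bd W s r w'
  have hR : DP W W (fun v => R (v 0) (v 1)) := by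
    refine DP.and (DP.isord (DT.var 1)) (DP.and ?_ ?_)
    · exact DP.app3 (R := Bd W) dp_bd (DT.par hs) (DT.var 0) (DT.var 1)
    · refine DP.ball (P := fun w' v => ¬ Bd W s (v 0) w') (DT.var 1) ?_
      exact DP.not (DP.app3 (R := Bd W) dp_bd (DT.par hs) (DT.var 1) (DT.var 0))
  have hdom : DP W W (fun v => ∃ w ∈ W, w.IsOrdinal ∧ Bd W s (v 0) w) := by
    refine DP.ex (P := fun w v => w.IsOrdinal ∧ Bd W s (v 0) w) ?_
    exact DP.and (DP.isord (DT.var 0)) (DP.app3 (R := Bd W) dp_bd (DT.par hs) (DT.var 1) (DT.var 0))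
  obtain ⟨A, hA, hA'⟩ := hz.sep (fun r => ∃ w ∈ W, w.IsOrdinal ∧ Bd W s r w) hdom y3 hy3
  have hleast : ∀ r, (∃ w ∈ W, w.IsOrdinal ∧ Bd W s r w) → ∃ c : O, c.toZFSet ∈ W ∧
      R r c.toZFSet := by
    rintro r ⟨w, hw, hwo, hB⟩
    have h1 := hwo.toZFSet_rank_eq
    let S : Set O := {c | c.toZFSet ∈ W ∧ Bd W s r c.toZFSet}
    have hS : S.Nonempty := ⟨w.rank, by rw [h1]; exact hw, by rw [h1]; exact hB⟩
    obtain ⟨c, hc, hmin⟩ := wellFounded_lt.has_min S hS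
    refine ⟨c, hc.1, ZFSet.isOrdinal_toZFSet c, hc.2, fun w' hw' hB' => ?_⟩
    rw [Ordinal.mem_toZFSet_iff] at hw'
    obtain ⟨c', hc', rfl⟩ := hw'
    exact hmin c' ⟨ZM.ord_le hc.1 hc'.le, hB'⟩ hc'
  obtain ⟨b, hb, hb'⟩ := hz.repl R hR A hA (by
    intro r hr
    obtain ⟨c, hcW, hcR⟩ := hleast r ((hA' r).1 hr).2
    refine ⟨c.toZFSet, hcW, hcR, ?_⟩
    rintro w hw ⟨h1, h2, h3⟩
    have h4 := h1.toZFSet_rank_eq
    rw [← h4] at h2 h3 ⊢
    rcases lt_trichotomy w.rank c with h | h | h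
    · exact absurd h2 (hcR.2.2 _ (Ordinal.toZFSet_mem_toZFSet_iff.2 h))
    · rw [h]
    · exact absurd hcR.2.1 (h3 _ (Ordinal.toZFSet_mem_toZFSet_iff.2 h)))
  refine ⟨b.rank, hrk b hb, fun h hh E hE hty => ?_⟩
  obtain ⟨g, hg, hgE⟩ := hty
  obtain ⟨r, hr3, hrh, hrB⟩ := hrel h hh E hE
  have hex : ∃ w ∈ W, w.IsOrdinal ∧ Bd W s r w :=
    ⟨_, hrkW h hh, ZFSet.isOrdinal_toZFSet _, hrB⟩
  obtain ⟨c, hcW, hcR⟩ := hleast r hex
  have hcb : c.toZFSet ∈ b := (hb' _).2 ⟨hcW, r, (hA' r).2 ⟨hr3, hex⟩, hcR⟩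
  have hcl : c < b.rank := by
    have := ZFSet.rank_lt_of_mem hcb
    rwa [Ordinal.rank_toZFSet] at this
  obtain ⟨h', hh', ⟨f1, f2⟩, hrh'⟩ := hcR.2.1
  -- choose arguments and values
  have hch : ∀ x < b.rank, ∃ (a : Z) (z : O), ZFSet.pair a (g x).toZFSet ∈ h ∧ z < c ∧
      ZFSet.pair a z.toZFSet ∈ h' := by
    intro x hx
    obtain ⟨a, ha⟩ := hE.2.2 (g x) (hgE x hx)
    obtain ⟨haW, hgW⟩ := pair_mem hh ha
    have h1 : ZFSet.pair a a ∈ r := (hrh _ (ZM.pair haW haW)).2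
      ⟨a, haW, a, haW, _, hgW, _, hgW, rfl, ha, ha, fun _ h => h⟩
    obtain ⟨a1, -, a2, -, x1, hx1, x2, -, e, h2, -, -⟩ := (hrh' _ (ZM.pair haW haW)).1 h1
    have e1 := (ZFSet.pair_inj.1 e).1
    rw [← e1] at h2
    obtain ⟨a3, -, x3, hx3, e3⟩ := f1 _ h2
    have e4 := (ZFSet.pair_inj.1 e3).2
    rw [← e4, Ordinal.mem_toZFSet_iff] at hx3
    obtain ⟨z, hzc, rfl⟩ := hx3
    exact ⟨a, z, ha, hzc, h2⟩
  choose! a z h1 h2 h3 using hch
  have hmono : ∀ x y, x < y → y < b.rank → z x < z y := by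
    intro x y hxy hy
    have hx := hxy.trans hy
    by_contra hlt
    rw [not_lt] at hlt
    obtain ⟨haxW, hzxW⟩ := pair_mem hh' (h3 x hx)
    obtain ⟨hayW, hzyW⟩ := pair_mem hh' (h3 y hy)
    have h4 : ZFSet.pair (a y) (a x) ∈ r := (hrh' _ (ZM.pair hayW haxW)).2
      ⟨a y, hayW, a x, haxW, _, hzyW, _, hzxW, rfl, h3 y hy, h3 x hx, sub_iff.2 hlt⟩
    obtain ⟨a1, -, a2, -, x1, -, x2, -, e, h5, h6, h7⟩ := (hrh _ (ZM.pair hayW haxW)).1 h4
    obtain ⟨e1, e2⟩ := ZFSet.pair_inj.1 e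
    rw [← e1] at h5
    rw [← e2] at h6
    have e3 := hE.2.1 _ _ _ h5 (h1 y hy)
    have e4 := hE.2.1 _ _ _ h6 (h1 x hx)
    rw [e3, e4, sub_iff] at h7
    exact absurd (hg hx hy hxy) (not_lt.2 h7)
  have h8 := le_of_mono hmono c hcl
  exact absurd (h2 c hcl) (not_lt.2 h8)

end Pool.Agent.Helper17.OD.PkHRT
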