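import Pool.Agent.Helper17.OD.GoalsGE

/-! # Project OD (MP_064283_lc), packet SVB: collection in the generic extension -/

namespace Pool.Agent.Helper17.OD.PkSVB

open Set

/-- The order, with tree arguments. -/
def LJ (F : FD) (a b c : T) : Prop :=
  ∃ j ≤ F.κ, a = .ord j ∧ b ∈ D (Iio F.κ) ∧ c ∈ D (Iio F.κ) ∧ F.Le j b c

/-- The amalgam, with tree arguments. -/
def AJ (F : FD) (a b c d : T) : Prop :=
  ∃ j < F.κ, a = .ord j ∧ b ∈ F.P j ∧ c ∈ F.P F.κ ∧ F.Le j b c ∧ d = am b c j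

/-- The forcing relation, with tree arguments. -/
def FJ (F : FD) (φ : SF) (p e K : T) : Prop :=
  p ∈ F.P F.κ ∧ e ∈ D (Iio F.κ) ∧ K ∈ D (Iio F.κ) ∧ Frc F φ p e (nth K)

/-- `z.snd` decides the existence of a witness at `z.fst`. -/
def EE (F : FD) (φ : SF) (e K z : T) : Prop :=
  z.snd ∈ F.P F.κ ∧ ((∃ y ∈ D (Iio F.γ), FJ F φ z.snd (.pr y (.pr z.fst e)) K) ∨
    ∀ y ∈ D (Iio F.γ), ∀ q ∈ D (Iio F.γ), LJ F (.ord F.κ) q z.snd →
      ¬ FJ F φ q (.pr y (.pr z.fst e)) K)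

theorem lj_iff {F : FD} {j : O} (hj : j ≤ F.κ) {b c : T} : LJ F (.ord j) b c ↔
    b ∈ D (Iio F.κ) ∧ c ∈ D (Iio F.κ) ∧ F.Le j b c := by
  constructor
  · rintro ⟨i, hi, h1, h2⟩
    injection h1 with h1
    subst h1
    exact h2
  · intro h
    exact ⟨j, hj, rfl, h⟩

theorem aj_iff {F : FD} {j : O} (hj : j < F.κ) {b c d : T} : AJ F (.ord j) b c d ↔
    b ∈ F.P j ∧ c ∈ F.P F.κ ∧ F.Le j b c ∧ d = am b c j := by
  constructor
  · rintro ⟨i, hi, h1, h2⟩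
    injection h1 with h1
    subst h1
    exact h2
  · intro h
    exact ⟨j, hj, rfl, h⟩

theorem nth_nat (i : ℕ) : nth (.nat 0) i = .nat 0 := by
  induction i with
  | zero => rfl
  | succ i ih => exact ih

theorem dec_nat (n : ℕ) : dec (.nat n) = ∅ := by
  apply eq_empty_of_forall_notMem
  rintro x ⟨b, φ, v, h, -⟩
  exact absurd h (by simp)

theorem supl_nat (n : ℕ) : supl (.nat n) = 0 := by
  have h : (0 : O) ∈ {a : O | (Tr.nat n : T) ∈ D (Iio a)} := nat_mem n _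
  exact le_antisymm (csInf_le' h) zero_le

theorem isNm_nat (F : FD) : IsNm F (.nat 0) := by
  refine ⟨nat_mem _ _, ?_, 0, lt_of_le_of_lt zero_le F.g.wk, ?_⟩
  · intro c' h
    exfalso
    rcases h with h | ⟨-, h⟩
    · rw [supl_nat] at h
      exact absurd h not_lt_zero
    · cases c' with
      | nat n => exact absurd h (Nat.not_lt_zero n)
      | ord a => exact h
      | pr s t => exact h
  · intro z hz
    rw [dec_nat] at hz
    exact absurd hz (notMem_empty z)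

theorem exists_list (F : FD) : ∀ (n : ℕ) (c : ℕ → T), (∀ i, IsNm F (c i)) →
    ∃ K ∈ D (Iio F.κ), (∀ i < n, nth K i = c i) ∧ ∀ i, IsNm F (nth K i) := by
  intro n
  induction n with
  | zero =>
    intro c hc
    refine ⟨.nat 0, nat_mem _ _, fun i hi => absurd hi (Nat.not_lt_zero i), fun i => ?_⟩
    rw [nth_nat]
    exact isNm_nat F
  | succ n ih =>
    intro c hc
    obtain ⟨K, hK, h1, h2⟩ := ih (fun i => c (i + 1)) fun i => hc (i + 1)
    refine ⟨.pr (c 0) K, pr_mem.2 ⟨(hc 0).1, hK⟩, fun i hi => ?_, fun i => ?_⟩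
    · cases i with
      | zero => rfl
      | succ i => exact h1 i (by omega)
    · cases i with
      | zero => exact hc 0
      | succ i => exact h2 i

/-- A tree below a limit is below a smaller ordinal. -/
theorem exists_below {k : O} (hk : Order.IsSuccLimit k) : ∀ t : T, t ∈ D (Iio k) →
    ∃ v < k, t ∈ D (Iio v) := by
  intro t
  induction t with
  | nat n =>
    intro _
    exact ⟨0, pos_iff_ne_zero.2 fun h => hk.1 (h ▸ isMin_bot), nat_mem _ _⟩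
  | ord a =>
    intro h
    exact ⟨Order.succ a, hk.succ_lt (ord_mem.1 h), ord_mem.2 (Order.lt_succ a)⟩
  | pr s t hs ht =>
    intro h
    obtain ⟨v, hv, h1⟩ := hs (pr_mem.1 h).1
    obtain ⟨u, hu, h2⟩ := ht (pr_mem.1 h).2
    refine ⟨max v u, max_lt hv hu, pr_mem.2 ⟨?_, ?_⟩⟩
    · exact D_mono (Iio_subset_Iio (le_max_left _ _)) h1
    · exact D_mono (Iio_subset_Iio (le_max_right _ _)) h2

section defs

variable {F : FD} (hPIM : G_PIM) (hAMG : G_AMG) (hFSD : G_FSD)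

theorem som (F : FD) : SOM F.γ F.M F.M := F.g.m1

theorem dmem (F : FD) {d : O} (hd : d < F.γ) : D (Iio d) ∈ F.M := by
  have := som F
  have h := SOM.sep (k := F.γ) (S := F.M) (S' := F.M) (P := fun _ => True) SD.const hd
  have h2 : {x : T | x ∈ D (Iio d) ∧ True} = D (Iio d) := by
    ext x
    simp
  rwa [h2] at h

include hPIM in
theorem sd_lj {a b c : T → T} (ha : ST F.γ a) (hb : ST F.γ b) (hc : ST F.γ c) :
    SD F.γ F.M F.M (fun e _ => LJ F (a e) (b e) (c e)) :=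
  SD.app3 (R := LJ F) (hPIM F).2.1 ha hb hc

include hAMG in
theorem sd_aj {a b c d : T → T} (ha : ST F.γ a) (hb : ST F.γ b) (hc : ST F.γ c)
    (hd : ST F.γ d) : SD F.γ F.M F.M (fun e _ => AJ F (a e) (b e) (c e) (d e)) :=
  SD.app4 (R := AJ F) (hAMG F).2 ha hb hc hd

include hFSD in
theorem sd_fj {φ : SF} {a b c : T → T} (ha : ST F.γ a) (hb : ST F.γ b) (hc : ST F.γ c) :
    SD F.γ F.M F.M (fun e _ => FJ F φ (a e) (b e) (c e)) :=
  SD.app3 (R := FJ F φ) ((hFSD F).2 φ) ha hb hc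

include hPIM hFSD in
theorem sd_ee {φ : SF} {e K : T} (he : e ∈ D (Iio F.γ)) (hK : K ∈ D (Iio F.γ)) {a : T → T}
    (ha : ST F.γ a) : SD F.γ F.M F.M (fun x _ => EE F φ e K (a x)) := by
  have := som F
  refine SD.sub (P := fun x _ => EE F φ e K x) ?_ ha
  have hP : F.P F.κ ∈ F.M := (hPIM F).2.2 F.κ le_rfl
  have hκ : (Tr.ord F.κ : T) ∈ D (Iio F.γ) := ord_mem.2 F.g.kg
  unfold EE
  repeat' first
    | exact ST.const he | exact ST.const hK | exact ST.const hκ | exact SV.par hP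
    | exact ST.id
    | apply SD.exT | apply SD.allT | apply sd_fj hFSD | apply sd_lj hPIM | apply SD.mem
    | apply SD.not | apply SD.and | apply SD.or | apply SD.imp | exact SD.const
    | apply ST.pr | apply ST.fst | apply ST.snd

end defs

theorem thm (hTRL : G_TRL) (hFSD : G_FSD) (hRED : G_RED) (hGNF : G_GNF) (hPBD : G_PBD)
    (hLST : G_LST) (hFMO : G_FMO) (hTRS : G_TRS) (hPIM : G_PIM) (hAMG : G_AMG) (hRES : G_RES)
    (hPRO : G_PRO) (hTRE : G_TRE) : G_SVB := by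
  intro F G hG φ e he σ hσ d hd hyp
  have hsom := som F
  have hκγ : F.κ < F.γ := F.g.kg
  have hlim : Order.IsSuccLimit F.κ := F.g.klim
  have hDκγ : D (Iio F.κ) ⊆ D (Iio F.γ) := D_mono (Iio_subset_Iio hκγ.le)
  -- the list of names
  obtain ⟨n, hn⟩ := hTRS.2.1 φ
  choose c hc hσc using hσ
  obtain ⟨K, hK, hK1, hK2⟩ := exists_list F n c hc
  have hsat : ∀ e' : T, (Sat F.κ (SG F G) φ e' σ ↔
      Sat F.κ (SG F G) φ e' (fun i => evl G (dec (nth K i)))) := by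
    intro e'
    refine hn _ _ _ _ _ fun i hi => ?_
    rw [hσc i, hK1 i hi]
  have htr : ∀ x ∈ D (Iio d), ∀ y ∈ D (Iio F.κ), (Sat F.κ (SG F G) φ (.pr y (.pr x e)) σ ↔
      ∃ p ∈ G, FJ F φ p (.pr y (.pr x e)) K) := by
    intro x hx y hy
    have hm : (Tr.pr y (.pr x e) : T) ∈ D (Iio F.κ) :=
      pr_mem.2 ⟨hy, pr_mem.2 ⟨D_mono (Iio_subset_Iio hd.le) hx, he⟩⟩
    rw [hsat, hTRL F G hG φ _ hm (nth K) hK2]
    constructor
    · rintro ⟨p, hp, h⟩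
      exact ⟨p, hp, hG.sub hp, hm, hK, h⟩
    · rintro ⟨p, hp, -, -, -, h⟩
      exact ⟨p, hp, h⟩
  -- monotonicity
  have hmono : ∀ p ∈ F.P F.κ, ∀ q ∈ F.P F.κ, F.Le F.κ q p → ∀ e', FJ F φ p e' K →
      FJ F φ q e' K := by
    intro p hp q hq hqp e' h
    exact ⟨hq, h.2.1, h.2.2.1, (hFMO F φ e' (nth K)).1 p hp q hq hqp h.2.2.2⟩
  -- order facts
  obtain ⟨hrefl, htrans, hdown, -, -⟩ := hPRO F
  obtain ⟨hB1, hB2, hB3, -⟩ := hPBD F
  have hPκ : F.P F.κ ∈ F.M := (hPIM F).2.2 F.κ le_rfl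
  have hPD : F.P F.κ ⊆ D (Iio F.κ) := hB2 F.κ
  -- the index
  have hjκ : d < F.κ := hd
  have hdη : d < F.η d := (F.e.low d hd).2
  set j : O := d with hj
  have hsj : Order.succ j < F.κ := hlim.succ_lt hjκ
  have hPj : F.P (Order.succ j) ∈ F.M := (hPIM F).2.2 _ hsj.le
  have hPjκ : F.P (Order.succ j) ⊆ F.P F.κ := hB3 _ _ hsj.le
  -- the decision sets
  let E : T → Set T := fun x => {p | p ∈ D (Iio F.κ) ∧ EE F φ e K (.pr x p)}
  have hEmem : ∀ x p, p ∈ E x ↔ EE F φ e K (.pr x p) := by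
    intro x p
    exact ⟨fun h => h.2, fun h => ⟨hPD h.1, h⟩⟩
  have heγ := hDκγ he
  have hKγ := hDκγ hK
  have hDO : ∀ x ∈ D (Iio j), F.DO (E x) := by
    intro x hx
    have hxγ : x ∈ D (Iio F.γ) := hDκγ (D_mono (Iio_subset_Iio hd.le) hx)
    refine ⟨?_, fun p hp => hp.2.1, ?_, ?_⟩
    · refine SOM.sep (k := F.γ) (S := F.M) (S' := F.M) ?_ hκγ
      exact sd_ee hPIM hFSD heγ hKγ (ST.pr (ST.const hxγ) ST.id)
    · intro p hp
      by_cases h : ∃ q ∈ F.P F.κ, F.Le F.κ q p ∧ ∃ y ∈ D (Iio F.γ),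
          FJ F φ q (.pr y (.pr x e)) K
      · obtain ⟨q, hq, hqp, h⟩ := h
        exact ⟨q, (hEmem x q).2 ⟨hq, Or.inl h⟩, hqp⟩
      · refine ⟨p, (hEmem x p).2 ⟨hp, Or.inr fun y hy q _ hqp hF => ?_⟩, hrefl _ _⟩
        exact h ⟨q, hF.1, ((lj_iff le_rfl).1 hqp).2.2, y, hy, hF⟩
    · intro q hq r hr hrq
      rw [hEmem] at hq ⊢
      refine ⟨hr, ?_⟩
      rcases hq.2 with ⟨y, hy, h⟩ | h
      · exact Or.inl ⟨y, hy, hmono q hq.1 r hr hrq _ h⟩
      · refine Or.inr fun y hy s hs hsr => h y hy s hs ?_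
        rw [lj_iff le_rfl] at hsr ⊢
        exact ⟨hsr.1, hPD hq.1, htrans _ _ _ _ hsr.2.2 hrq⟩
  have hfam : {z : T | ∃ y ∈ D (Iio j), ∃ p ∈ E y, z = .pr y p} ∈ F.M := by
    have h1 : {z : T | z ∈ D (Iio F.κ) ∧ (z = .pr z.fst z.snd ∧ z.fst ∈ D (Iio j) ∧
        EE F φ e K z)} ∈ F.M := by
      refine SOM.sep (k := F.γ) (S := F.M) (S' := F.M) ?_ hκγ
      refine SD.and (SD.eq ST.id (ST.pr (ST.fst ST.id) (ST.snd ST.id)))
        (SD.and (SD.mem (ST.fst ST.id) (SV.par (dmem F (hd.trans hκγ)))) ?_)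
      exact sd_ee hPIM hFSD heγ hKγ ST.id
    convert h1 using 1
    ext z
    constructor
    · rintro ⟨y, hy, p, hp, rfl⟩
      have h2 := (hEmem y p).1 hp
      exact ⟨pr_mem.2 ⟨D_mono (Iio_subset_Iio hd.le) hy, hPD h2.1⟩, rfl, hy, h2⟩
    · rintro ⟨h2, h3, h4, h5⟩
      refine ⟨z.fst, h4, z.snd, ?_, h3⟩
      rw [hEmem, ← h3]
      exact h5
  -- a reducing condition in the generic filter
  obtain ⟨g1, g2, g3, -⟩ := hGNF F G hG
  have hsjγ : (Tr.ord (Order.succ j) : T) ∈ D (Iio F.γ) := ord_mem.2 (hsj.trans hκγ)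
  have hκm : (Tr.ord F.κ : T) ∈ D (Iio F.γ) := ord_mem.2 hκγ
  have hDj : D (Iio j) ∈ F.M := dmem F (hd.trans hκγ)
  let R : T → Prop := fun q => q ∈ F.P F.κ ∧ ∀ x ∈ D (Iio F.γ), x ∈ D (Iio j) →
    ∀ t ∈ D (Iio F.γ), t ∈ F.P (Order.succ j) → LJ F (.ord (Order.succ j)) t q →
      ∃ t' ∈ D (Iio F.γ), t' ∈ F.P (Order.succ j) ∧ LJ F (.ord (Order.succ j)) t' t ∧
        ∃ a ∈ D (Iio F.γ), AJ F (.ord (Order.succ j)) t' q a ∧ EE F φ e K (.pr x a)
  have hRM : {q | q ∈ D (Iio F.κ) ∧ R q} ∈ F.M := by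
    refine SOM.sep (k := F.γ) (S := F.M) (S' := F.M) ?_ hκγ
    simp only [R]
    repeat' first
      | exact ST.const hsjγ | exact SV.par hPκ | exact SV.par hPj | exact SV.par hDj
      | exact ST.id
      | apply SD.exT | apply SD.allT | apply sd_ee hPIM hFSD heγ hKγ | apply sd_lj hPIM
      | apply sd_aj hAMG
      | apply SD.mem
      | apply SD.not | apply SD.and | apply SD.or | apply SD.imp | exact SD.const
      | apply ST.pr | apply ST.fst | apply ST.snd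
  obtain ⟨p₀, hp₀⟩ := hG.ne
  obtain ⟨q, ⟨-, hq⟩, hqG⟩ := g3 p₀ hp₀ _ hRM (by
    intro q hq _
    obtain ⟨r, hr, hrq, -, h⟩ := hRED F j j hjκ hdη E hDO hfam q hq
    refine ⟨r, ⟨hPD hr, hr, fun x _ hx t _ ht htr => ?_⟩, hr, hrq⟩
    rw [lj_iff hsj.le] at htr
    obtain ⟨t', ht', htt, h2⟩ := h x hx t ht htr.2.2
    have htr' : F.Le (Order.succ j) t' r := htrans _ _ _ _ htt htr.2.2
    refine ⟨t', hDκγ (hB2 _ ht'), ht', (lj_iff hsj.le).2 ⟨hB2 _ ht', hB2 _ ht, htt⟩,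
      am t' r (Order.succ j), ?_, (aj_iff hsj).2 ⟨ht', hr, htr', rfl⟩, (hEmem _ _).1 h2⟩
    exact hDκγ h2.1)
  have hqP : q ∈ F.P F.κ := hq.1
  -- for each `x` there is a good amalgam in the generic filter
  have hgood : ∀ x ∈ D (Iio j), ∃ t' ∈ F.P (Order.succ j), F.Le (Order.succ j) t' q ∧
      am t' q (Order.succ j) ∈ G ∧ EE F φ e K (.pr x (am t' q (Order.succ j))) := by
    intro x hx
    have hxγ : x ∈ D (Iio F.γ) := hDκγ (D_mono (Iio_subset_Iio hd.le) hx)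
    have hqγ : q ∈ D (Iio F.γ) := hDκγ (hPD hqP)
    have hTM : {r | r ∈ D (Iio F.κ) ∧ (r ∈ F.P F.κ ∧ ∃ t' ∈ D (Iio F.γ),
        t' ∈ F.P (Order.succ j) ∧ LJ F (.ord F.κ) r t' ∧ LJ F (.ord (Order.succ j)) t' q ∧
        ∃ a ∈ D (Iio F.γ), AJ F (.ord (Order.succ j)) t' q a ∧ EE F φ e K (.pr x a))} ∈ F.M := by
      refine SOM.sep (k := F.γ) (S := F.M) (S' := F.M) ?_ hκγ
      repeat' first
        | exact ST.const hsjγ | exact ST.const hκm | exact ST.const hxγ | exact ST.const hqγ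
        | exact SV.par hPκ | exact SV.par hPj | exact SV.par hDj
        | exact ST.id
        | apply SD.exT | apply SD.allT | apply sd_ee hPIM hFSD heγ hKγ | apply sd_lj hPIM
        | apply sd_aj hAMG
        | apply SD.mem
        | apply SD.not | apply SD.and | apply SD.or | apply SD.imp | exact SD.const
        | apply ST.pr | apply ST.fst | apply ST.snd
    obtain ⟨r, ⟨-, hrP, t', -, ht', hrt, htq, a, -, ha, hE⟩, hrG⟩ := g3 q hqG _ hTM (by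
      intro u hu huq
      obtain ⟨hr1, hr2, -, hr4, -, hr5, hr6, hr7⟩ := (hRES F).1 u hu (Order.succ j) hsj.le
      have hresq : F.Le (Order.succ j) (res u (Order.succ j)) q :=
        htrans _ _ _ _ hr5 (hdown _ _ _ _ hsj.le huq)
      obtain ⟨t', -, ht', htt, a, -, ha, hE⟩ := hq.2 x hxγ hx (res u (Order.succ j))
        (hDκγ (hB2 _ hr1)) hr1 ((lj_iff hsj.le).2 ⟨hB2 _ hr1, hPD hqP, hresq⟩)
      rw [lj_iff hsj.le] at htt
      have htu : F.Le (Order.succ j) t' u := htrans _ _ _ _ htt.2.2 hr5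
      obtain ⟨a1, a2, a3, a4, a5, -⟩ := (hAMG F).1 (Order.succ j) hsj t' ht' u hu htu
      obtain ⟨-, -, -, -, -, -, -, hs7⟩ := (hRES F).1 _ a1 (Order.succ j) hsj.le
      rw [a5] at hs7
      refine ⟨am t' u (Order.succ j), ⟨hPD a1, a1, t', hDκγ (hB2 _ ht'), ht',
        (lj_iff le_rfl).2 ⟨hPD a1, hB2 _ ht', hs7⟩,
        (lj_iff hsj.le).2 ⟨hB2 _ ht', hPD hqP, htrans _ _ _ _ htt.2.2 hresq⟩, a, ?_, ha, hE⟩,
        a1, a4⟩
      exact hDκγ (hPD hE.1))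
    rw [lj_iff le_rfl] at hrt
    rw [lj_iff hsj.le] at htq
    rw [aj_iff hsj] at ha
    obtain ⟨-, -, -, rfl⟩ := ha
    have htG : t' ∈ G := hG.up r hrG t' (hPjκ ht') hrt.2.2
    exact ⟨t', ht', htq.2.2, g2 _ hsj t' htG ht' q hqG htq.2.2, hE⟩
  have hgood2 : ∀ x ∈ D (Iio j), ∃ t' ∈ F.P (Order.succ j), am t' q (Order.succ j) ∈ G ∧
      F.Le (Order.succ j) t' q ∧
      ∃ y ∈ D (Iio F.γ), FJ F φ (am t' q (Order.succ j)) (.pr y (.pr x e)) K := by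
    intro x hx
    obtain ⟨t', ht', htq, hG', hE⟩ := hgood x hx
    refine ⟨t', ht', hG', htq, ?_⟩
    rcases hE.2 with h | h
    · exact h
    · exfalso
      obtain ⟨y, hy, hs⟩ := hyp x hx
      obtain ⟨p, hp, hF⟩ := (htr x hx y hy).1 hs
      obtain ⟨r, hr, h1, h2⟩ := hG.dir p hp _ hG'
      have h3 := hmono p (hG.sub hp) r (hG.sub hr) h1 _ hF
      refine h y (hDκγ hy) r (hDκγ (hPD (hG.sub hr))) ?_ h3
      exact (lj_iff le_rfl).2 ⟨hPD (hG.sub hr), hPD (hG.sub hG'), h2⟩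
  -- the bound
  obtain ⟨r₀, hr₀, hPr⟩ := hB1 (Order.succ j) hsj
  have hr₀κ : r₀ < F.κ := hr₀.trans (F.e.lt _ hsj)
  set d' := max r₀ d with hd'
  have hd'κ : d' < F.κ := max_lt hr₀κ hd
  have hqγ : q ∈ D (Iio F.γ) := hDκγ (hPD hqP)
  let W : T → Prop := fun z => ∃ y ∈ D (Iio F.γ), ∃ a ∈ D (Iio F.γ),
    AJ F (.ord (Order.succ j)) z.fst q a ∧ FJ F φ a (.pr y (.pr z.snd e)) K
  let Pz : T → T → Prop := fun z v => v.IsOrd ∧ v ∈ D (Iio F.κ) ∧
    ((∃ y ∈ D (Iio F.γ), InD v y ∧ ∃ a ∈ D (Iio F.γ), AJ F (.ord (Order.succ j)) z.fst q a ∧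
      FJ F φ a (.pr y (.pr z.snd e)) K) ∨ ¬ W z)
  have hDκ : D (Iio F.κ) ∈ F.M := dmem F hκγ
  have hInD : ∀ {a b : T → T}, ST F.γ a → ST F.γ b → SD F.γ F.M F.M
      (fun e _ => InD (a e) (b e)) := fun ha hb =>
    SD.app2 (R := InD) (hTRE F.γ F.M F.M hsom).2.2.2.2.2.1 ha hb
  obtain ⟨f, hf1, -, hf3⟩ := hLST F.γ F.M F.M hsom Pz (by
    simp only [Pz, W]
    repeat' first
      | exact ST.const hsjγ | exact ST.const hκm | exact ST.const hqγ | exact ST.const heγ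
      | exact ST.const hKγ
      | exact SV.par hDκ
      | exact ST.id
      | apply SD.exT | apply SD.allT | apply sd_fj hFSD | apply sd_lj hPIM
      | apply sd_aj hAMG | apply hInD
      | apply SD.mem | apply SD.isOrd
      | apply SD.not | apply SD.and | apply SD.or | apply SD.imp | exact SD.const
      | apply ST.pr | apply ST.fst | apply ST.snd)
  have hex : ∀ z, ∃ v ∈ D (Iio F.γ), Pz z v := by
    intro z
    by_cases hW : W z
    · obtain ⟨y, hy, a, ha, h1, h2⟩ := hW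
      obtain ⟨v, hv, hyv⟩ := exists_below hlim y (pr_mem.1 h2.2.1).1
      exact ⟨.ord v, hDκγ (ord_mem.2 hv), trivial, ord_mem.2 hv,
        Or.inl ⟨y, hy, ⟨v, rfl, hyv⟩, a, ha, h1, h2⟩⟩
    · have h0 : (0 : O) < F.κ := lt_of_le_of_lt zero_le hd
      exact ⟨.ord 0, hDκγ (ord_mem.2 h0), trivial, ord_mem.2 h0, Or.inr hW⟩
  have hfP : ∀ z ∈ D (Iio d'), Pz z (f z) := fun z hz =>
    (hf1 z (hDκγ (D_mono (Iio_subset_Iio hd'κ.le) hz)) (hex z)).2.1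
  have hgr : gr (D (Iio d')) f ∈ F.M := by
    have h1 : {z : T | z ∈ D (Iio F.κ) ∧ (z = .pr z.fst z.snd ∧ z.fst ∈ D (Iio d') ∧
        f z.fst = z.snd)} ∈ F.M := by
      refine SOM.sep (k := F.γ) (S := F.M) (S' := F.M) ?_ hκγ
      exact SD.and (SD.eq ST.id (ST.pr (ST.fst ST.id) (ST.snd ST.id)))
        (SD.and (SD.mem (ST.fst ST.id) (SV.par (dmem F (hd'κ.trans hκγ)))) hf3)
    convert h1 using 1
    ext z
    constructor
    · rintro ⟨x, hx, rfl⟩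
      exact ⟨pr_mem.2 ⟨D_mono (Iio_subset_Iio hd'κ.le) hx, (hfP x hx).2.1⟩, rfl, hx, rfl⟩
    · rintro ⟨-, h3, h4, h5⟩
      exact ⟨z.fst, h4, by rw [h5]; exact h3⟩
  obtain ⟨b, hb, hb2⟩ := F.g.m4k d' hd'κ f (fun z hz => ⟨(hfP z hz).1, (hfP z hz).2.1⟩) hgr
  refine ⟨b, hb, fun x hx => ?_⟩
  obtain ⟨t', ht', hG', htq, y, hy, hF⟩ := hgood2 x hx
  have hz : (Tr.pr t' x : T) ∈ D (Iio d') :=
    pr_mem.2 ⟨D_mono (Iio_subset_Iio (le_max_left _ _)) (hPr ht'),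
      D_mono (Iio_subset_Iio (le_max_right _ _)) hx⟩
  have hbz := hb2 _ hz
  obtain ⟨hv1, hv2, hv3⟩ := hfP _ hz
  rcases hv3 with ⟨y', hy', ⟨v, hv, hyv⟩, a, ha, haj, hFa⟩ | hno
  · rw [hv] at hbz
    have hvb : v < b := ord_mem.1 hbz
    have hyb : y' ∈ D (Iio b) := D_mono (Iio_subset_Iio hvb.le) hyv
    refine ⟨y', hyb, ?_⟩
    obtain ⟨-, -, -, rfl⟩ := (aj_iff hsj).1 haj
    exact (htr x hx y' (D_mono (Iio_subset_Iio hb.le) hyb)).2 ⟨_, hG', hFa⟩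
  · exact absurd ⟨y, hy, am t' q (Order.succ j), hDκγ (hPD hF.1),
      (aj_iff hsj).2 ⟨ht', hqP, htq, rfl⟩, hF⟩ hno

end Pool.Agent.Helper17.OD.PkSVB
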