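import Pool.Agent.Helper97.OD.EL3

/-! # Project OD (MP_064283_lc), packet TRS: translation of second order formulas into codes -/

namespace Pool.Agent.Helper17.OD.PkTRS

open Set Pool.Agent.Helper17.OD.PkEL6 Pool.Agent.Helper17.OD.PkEL3

theorem llt_iff (s t : T) : s.llt t ↔ s.lt t ∧ ¬ t = .pr t.fst t.snd := by
  cases s <;> cases t <;> simp [Tr.llt, Tr.lt, Tr.fst, Tr.snd]

theorem dseq_pr (k K : T) : dseq (.pr k K) = scons (dec k) (dseq K) := by
  funext i
  cases i <;> rfl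

theorem ex_con (a : O) (P : Set T → Prop) : (∃ X ∈ Con a, P X) ↔ ∃ k ∈ D (Iio a), P (dec k) := by
  constructor
  · rintro ⟨X, ⟨k, hk, rfl⟩, h⟩
    exact ⟨k, hk, h⟩
  · rintro ⟨k, hk, h⟩
    exact ⟨dec k, ⟨k, hk, rfl⟩, h⟩

theorem sat_def (hTTC : G_TTC) (hTDC : G_TDC) (φ : SF) :
    TDef (fun a p => Sat a (Con a) φ p.fst (dseq p.snd)) := by
  have hmem := memD_def hTTC hTDC
  obtain ⟨t1, t2, t3, t4, t5, t6, t7⟩ := hTTC
  obtain ⟨d1, d2, d3, d4, d5, d6, d7, d8, d9, d10, d11, d12, d13, d14, d15⟩ := hTDC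
  have htv : ∀ (s : Code), TT (fun p : T => tval s p.fst) := fun s =>
    t7 (fun e => tval s e) (fun p => p.fst) ⟨s, fun _ => rfl⟩ (t4 _ t1)
  have hnth : ∀ (i : ℕ) (t : T → T), TT t → TT (fun p : T => nth (t p) i) := by
    intro i
    induction i with
    | zero => intro t ht; exact t4 _ ht
    | succ i ih => intro t ht; exact ih (fun p => (t p).snd) (t5 _ ht)
  induction φ with
  | eq s t => exact d1 _ _ (htv s) (htv t)
  | llt s t =>
    have h1 : TDef (fun _ p => (tval s (Tr.fst p)).lt (tval t (Tr.fst p)) ∧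
        ¬ tval t (Tr.fst p) = .pr (tval t (Tr.fst p)).fst (tval t (Tr.fst p)).snd) := by
      apply d7
      · exact d2 _ _ (htv s) (htv t)
      · exact d6 _ (d1 _ _ (htv t) (t6 _ _ (t4 _ (htv t)) (t5 _ (htv t))))
    obtain ⟨c, hc⟩ := h1
    refine ⟨c, fun a e he => (hc a e he).trans ?_⟩
    exact (llt_iff _ _).symm
  | isOrd s => exact d3 _ (htv s)
  | mem s i =>
    obtain ⟨c, hc⟩ := hmem _ _ (htv s) (hnth i _ (t5 _ t1))
    refine ⟨c, fun a e he => (hc a e he).trans ?_⟩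
    exact memD_iff _ _
  | nand φ ψ h1 h2 => exact d6 _ (d7 _ _ h1 h2)
  | exT φ h =>
    exact d11 (fun a p x => Sat a (Con a) φ (.pr x p.fst) (dseq p.snd))
      (d13 _ (fun q : T => .pr (.pr q.fst q.snd.fst) q.snd.snd) h
        (t6 _ _ (t6 _ _ (t4 _ t1) (t4 _ (t5 _ t1))) (t5 _ (t5 _ t1))))
  | exS φ h =>
    have h1 : TDef (fun a p => ∃ k ∈ D (Iio a), Sat a (Con a) φ p.fst (dseq (.pr k p.snd))) :=
      d11 (fun a p k => Sat a (Con a) φ p.fst (dseq (.pr k p.snd)))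
        (d13 _ (fun q : T => .pr q.snd.fst (.pr q.fst q.snd.snd)) h
          (t6 _ _ (t4 _ (t5 _ t1)) (t6 _ _ (t4 _ t1) (t5 _ (t5 _ t1)))))
    obtain ⟨c, hc⟩ := h1
    refine ⟨c, fun a e he => (hc a e he).trans ?_⟩
    simp only [dseq_pr]
    exact (ex_con a fun X => Sat a (Con a) φ e.fst (scons X (dseq e.snd))).symm

theorem thm (hTTC : G_TTC) (hTDC : G_TDC) : G_TRS := by
  refine ⟨fun φ => ?_, fun φ => ?_, fun a σ n => ?_⟩
  · obtain ⟨c, hc⟩ := sat_def hTTC hTDC φ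
    exact ⟨c, fun a _ e he K hK => hc a (.pr e K) (pr_mem.2 ⟨he, hK⟩)⟩
  · induction φ with
    | eq s t => exact ⟨0, fun _ _ _ _ _ _ => Iff.rfl⟩
    | llt s t => exact ⟨0, fun _ _ _ _ _ _ => Iff.rfl⟩
    | isOrd s => exact ⟨0, fun _ _ _ _ _ _ => Iff.rfl⟩
    | mem s i =>
      refine ⟨i + 1, fun k S e σ σ' h => ?_⟩
      simp only [Sat, h i (Nat.lt_succ_self i)]
    | nand φ ψ h1 h2 =>
      obtain ⟨n, hn⟩ := h1
      obtain ⟨m, hm⟩ := h2
      refine ⟨max n m, fun k S e σ σ' h => ?_⟩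
      have e1 := hn k S e σ σ' fun i hi => h i (lt_of_lt_of_le hi (le_max_left _ _))
      have e2 := hm k S e σ σ' fun i hi => h i (lt_of_lt_of_le hi (le_max_right _ _))
      simp only [Sat, e1, e2]
    | exT φ h1 =>
      obtain ⟨n, hn⟩ := h1
      refine ⟨n, fun k S e σ σ' h => ?_⟩
      exact exists_congr fun x => and_congr_right fun _ => hn k S _ σ σ' h
    | exS φ h1 =>
      obtain ⟨n, hn⟩ := h1
      refine ⟨n, fun k S e σ σ' h => ?_⟩
      refine exists_congr fun X => and_congr_right fun _ => hn k S _ _ _ fun i hi => ?_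
      cases i with
      | zero => rfl
      | succ i => exact h i (by omega)
  · induction n generalizing σ with
    | zero =>
      intro _
      exact ⟨.nat 0, nat_mem _ _, fun i hi => absurd hi (Nat.not_lt_zero i)⟩
    | succ n ih =>
      intro hσ
      obtain ⟨K, hK, h⟩ := ih (fun i => σ (i + 1)) fun i => hσ (i + 1)
      obtain ⟨k, hk, h0⟩ := hσ 0
      refine ⟨.pr k K, pr_mem.2 ⟨hk, hK⟩, fun i hi => ?_⟩
      rw [dseq_pr]
      cases i with
      | zero => exact h0.symm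
      | succ i => exact h i (by omega)

end Pool.Agent.Helper17.OD.PkTRS
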