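import Pool.Agent.Helper17.OD.GoalsZV

/-! # Project OD (MP_064283_lc), packet VRP: replacement in `V` -/

namespace Pool.Agent.Helper17.OD.PkVRP

open Set
open Pool.Agent.Helper97.Ku (Fml IsZFC)

theorem thm (hSCL : G_SCL) (hFAM : G_FAM) (hTRF : G_TRF) (hSBC : G_SBC) (hEQM : G_EQM)
    (hCVL : G_CVL) (hCOD : G_COD) : G_VRP := by
  intro k S hs hPE φ w hw a ha hfun
  have := hs
  obtain ⟨u1, -, -, u4, -⟩ := hCVL
  obtain ⟨q1, q2, q3⟩ := hEQM k S S hs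
  obtain ⟨Xa, hXa, hXaz⟩ := ha
  choose Xw hXw hXwz using hw
  obtain ⟨P, hP, hPi⟩ := hTRF k S S hs φ
  have h0 : (Tr.nat 0 : T) ∈ D (Iio k) := nat_mem _ _
  let en : Set T → Set T → ℕ → Set T := fun X Y i => if i = 0 then X else if i = 1 then Y else Xw i
  let Q : T → Set T → Prop := fun p Y => IsCd S Y ∧ ∃ X' ∈ S, IsCd S X' ∧
    Eqv S (rel X') (rel Xa) (.nat 0) p ∧ P (en X' Y)
  have hQ : SD k S S (fun e σ => Q e (σ 0)) := by
    refine SD.and (SD.appS0 q2 (SV.var 0)) ?_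
    refine SD.exS (P := fun e X' σ => IsCd S X' ∧ Eqv S (rel X') (rel Xa) (.nat 0) e ∧
      P (en X' (σ 0))) ?_
    refine SD.and (SD.appS0 q2 (SV.var 0)) (SD.and ?_ ?_)
    · exact SD.appS2 (R := fun e X Y => Eqv S (rel X) (rel Y) e.fst e.snd) q1
        (ST.pr (ST.nat 0) ST.id) (SV.var 0) (SV.par hXa.1)
    · refine SD.subS (θ := fun i σ => en (σ 0) (σ 1) i) (P := fun _ σ => P σ) hP fun i => ?_
      simp only [en]
      split_ifs with h1 h2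
      · exact SV.var 0
      · exact SV.var 1
      · exact SV.par (hXw i).1
  have hen : ∀ (X' Y : Set T) (x y : Z), IsCd S X' → Cvl (rel X') x (.nat 0) → IsCd S Y →
      Cvl (rel Y) y (.nat 0) → (P (en X' Y) ↔
        SatW (Vof S) φ (Function.update (Function.update w 0 x) 1 y)) := by
    intro X' Y x y h1 h2 h3 h4
    refine hPi _ _ fun i => ?_
    simp only [en]
    by_cases hi0 : i = 0
    · subst hi0
      rw [if_pos rfl, Function.update_of_ne (by omega), Function.update_self]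
      exact ⟨h1, h2⟩
    · rw [if_neg hi0]
      by_cases hi1 : i = 1
      · subst hi1
        rw [if_pos rfl, Function.update_self]
        exact ⟨h3, h4⟩
      · rw [if_neg hi1, Function.update_of_ne hi1, Function.update_of_ne hi0]
        exact ⟨hXw i, hXwz i⟩
  -- the points below the root
  let A : Set T := {p | Tr.pr p (.nat 0) ∈ Xa}
  obtain ⟨d, hd, hXad⟩ := hs.bdd Xa hXa.1
  have hAd : A ⊆ D (Iio d) := fun p hp => (pr_mem.1 (hXad hp)).1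
  have hAk : A ⊆ D (Iio k) := hAd.trans (D_mono (Iio_subset_Iio hd.le))
  have hA : A ∈ S := by
    refine SOM.of_SD (k := k) (S := S) (S' := S) hd hAd ?_
    change SD k S S (fun e _ => Tr.pr e (.nat 0) ∈ Xa)
    exact SD.mem (ST.pr ST.id (ST.nat 0)) (SV.par hXa.1)
  have hval : ∀ p ∈ A, ∃ x ∈ a, Cvl (rel Xa) x p := by
    intro p hp
    obtain ⟨x, hx⟩ := (hCOD k S hs Xa hXa).2.1 p
    exact ⟨x, (u4 _ _ _ hXaz x).2 ⟨p, hp, hx⟩, hx⟩
  have hcode : ∀ p z, Cvl (rel Xa) z p → ∃ X', IsCd S X' ∧ Cvl (rel X') z (.nat 0) :=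
    fun p z hz => (hSBC k S S hs).2.2 Xa hXa p z hz
  obtain ⟨F, hF, hFQ⟩ := hSCL k S hs hPE Q hQ A hA (by
    intro p hp
    obtain ⟨x, hxa, hx⟩ := hval p hp
    obtain ⟨X', hX', hX'z⟩ := hcode p x hx
    obtain ⟨y, ⟨Y, hY, hYz⟩, hsat, -⟩ := hfun x hxa
    refine ⟨Y, hY.1, hY, X', hX'.1, hX', ?_, ?_⟩
    · exact (q3 X' Xa hX' hXa _ h0 p (hAk hp)).2 ⟨x, hX'z, hx⟩
    · exact (hen X' Y x y hX' hX'z hY hYz).2 hsat)
  obtain ⟨b, hb, hbi⟩ := hFAM k S hs F hF A hA fun p hp => (hFQ p hp).2.1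
  -- the value of the chosen set
  have key : ∀ p ∈ A, ∀ x, Cvl (rel Xa) x p → ∀ y, Cvl (rel {x | Tr.pr p x ∈ F}) y (.nat 0) →
      y ∈ Vof S ∧ SatW (Vof S) φ (Function.update (Function.update w 0 x) 1 y) := by
    intro p hp x hx y hy
    obtain ⟨-, hY, X', -, hX', hE, hPP⟩ := hFQ p hp
    obtain ⟨z, hz1, hz2⟩ := (q3 X' Xa hX' hXa _ h0 p (hAk hp)).1 hE
    have hzx : z = x := u1 _ _ _ _ hz2 hx
    subst hzx
    exact ⟨⟨_, hY, hy⟩, (hen X' _ z y hX' hz1 hY hy).1 hPP⟩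
  refine ⟨b, hb, fun y => ?_⟩
  rw [hbi]
  constructor
  · rintro ⟨p, hp, hy⟩
    obtain ⟨x, hxa, hx⟩ := hval p hp
    obtain ⟨h1, h2⟩ := key p hp x hx y hy
    exact ⟨x, hxa, h1, h2⟩
  · rintro ⟨x, hxa, hyV, hsat⟩
    obtain ⟨p, hp, hx⟩ := (u4 _ _ _ hXaz x).1 hxa
    obtain ⟨y', hy'⟩ := (hCOD k S hs _ (hFQ p hp).2.1).2.1 (.nat 0)
    obtain ⟨h1, h2⟩ := key p hp x hx y' hy'
    obtain ⟨y₀, -, -, huniq⟩ := hfun x hxa
    have e1 := huniq y hyV hsat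
    have e2 := huniq y' h1 h2
    refine ⟨p, hp, ?_⟩
    rw [e1, ← e2]
    exact hy'

end Pool.Agent.Helper17.OD.PkVRP
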