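import Pool.Agent.Helper17.OD.GoalsWM

/-! # Project OD (MP_064283_lc), packet WCS: comprehension in the outer model -/

namespace Pool.Agent.Helper17.OD.PkWCS

open Set

/-- `y` is the code of a tree with leaves below the ordinal `w`. -/
def J (y w : Z) : Prop := ∃ (d : O) (t : T), y = enc t ∧ w = d.toZFSet ∧ t ∈ D (Iio d)

theorem j_iff {y : Z} {d : O} : J y d.toZFSet ↔ ∃ t ∈ D (Iio d), y = enc t := by
  constructor
  · rintro ⟨d', t, h1, h2, h3⟩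
    have := Ordinal.toZFSet_injective h2
    subst this
    exact ⟨t, h3, h1⟩
  · rintro ⟨t, h1, h2⟩
    exact ⟨d, t, h2, rfl, h1⟩

/-- A tree below a limit is below a smaller ordinal. -/
theorem exists_below {k : O} (hk : Order.IsSuccLimit k) : ∀ t : T, t ∈ D (Iio k) →
    ∃ v < k, t ∈ D (Iio v) := by
  intro t
  induction t with
  | nat n =>
    intro _
    exact ⟨0, pos_iff_ne_zero.2 fun h => hk.1 (h ▸ isMin_bot), nat_mem _ _⟩
  | ord a =>
    intro h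
    exact ⟨Order.succ a, hk.succ_lt (ord_mem.1 h), ord_mem.2 (Order.lt_succ a)⟩
  | pr s t hs ht =>
    intro h
    obtain ⟨v, hv, h1⟩ := hs (pr_mem.1 h).1
    obtain ⟨u, hu, h2⟩ := ht (pr_mem.1 h).2
    refine ⟨max v u, max_lt hv hu, pr_mem.2 ⟨?_, ?_⟩⟩
    · exact D_mono (Iio_subset_Iio (le_max_left _ _)) h1
    · exact D_mono (Iio_subset_Iio (le_max_right _ _)) h2

theorem thm (hENC : G_ENC) (hEDF : G_EDF) (hWRK : G_WRK) (hWLV : G_WLV) (hODC : G_ODC) :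
    G_WCS := by
  intro W κ hz hκ
  have := hz
  obtain ⟨e1, e2, e3, e4, e5, e6⟩ := hENC
  obtain ⟨hlim, hom, hmem⟩ := e6 W κ hz hκ
  obtain ⟨-, o2, o3, -, oPS, -⟩ := hODC W ∅ hz
  have hPS := oPS
  have psW : PS W W := inferInstance
  have hJ : ∀ Q', PS W Q' → DP W Q' (fun v => J (v 0) (v 1)) := fun Q' h =>
    (hEDF W Q' hz h).2.2.2.2.2
  have hod : ∀ d < κ, d.toZFSet ∈ {x | ODF W ∅ x} := fun d hd =>
    o3 _ ⟨(hκ d).2 hd, Or.inl (ZFSet.isOrdinal_toZFSet d)⟩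
  have hrk : ∀ x ∈ W, x.rank < κ := fun x hx => (hκ _).1 ((hWRK W W hz psW).1 x hx)
  have c1 : ∀ d < κ, ∃ A ∈ W, EncS A (D (Iio d)) := by
    intro d hd
    have h1 := (hWRK W W hz psW).2.2 d ((hκ d).2 hd)
    obtain ⟨b, hb, hb2⟩ := (hWLV W W hz psW).1 _ h1
    have hP : DP W W (fun v => J (v 0) d.toZFSet) :=
      DP.app2 (R := J) (hJ W psW) (DT.var 0) (DT.par ((hκ d).2 hd))
    obtain ⟨A, hA, hA2⟩ := hz.sep (fun z => J z d.toZFSet) hP b hb
    refine ⟨A, hA, fun z => ?_⟩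
    rw [hA2, j_iff, hb2]
    constructor
    · rintro ⟨-, t, h3, h4⟩
      exact ⟨t, h3, h4⟩
    · rintro ⟨t, h3, h4⟩
      refine ⟨?_, t, h3, h4⟩
      rw [h4]
      refine ⟨(hmem t).2 (D_mono (Iio_subset_Iio hd.le) h3), ?_⟩
      refine e2 _ (Ordinal.isSuccLimit_add d Ordinal.isSuccLimit_omega0) t
        (D_mono (Iio_subset_Iio ?_) h3)
      exact le_self_add
  -- sets defined from definable parameters
  have odf : ∀ (R : Z → Prop), DP W {x | ODF W ∅ x} (fun v => R (v 0)) → ∀ A ∈ W,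
      (∀ z, z ∈ A ↔ z ∈ W ∧ R z) → ODF W ∅ A := by
    intro R hR A hA hAR
    refine o2 (fun y => ∀ z ∈ W, (z ∈ y ↔ R z)) ?_ A hA fun y hy => ?_
    · refine DP.all (P := fun z v => (z ∈ v 0 ↔ R z)) ?_
      exact DP.iff (DP.vmem 0 1) hR
    · rw [ext_tr hy hA]
      refine forall_congr' fun z => forall_congr' fun hzW => ?_
      rw [hAR z]
      constructor
      · intro h
        rw [h]
        exact ⟨fun h => ⟨hzW, h⟩, fun h => h.2⟩
      · intro h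
        rw [h]
        exact ⟨fun h => h.2, fun h => ⟨hzW, h⟩⟩
  have c1' : ∀ d < κ, ∃ A, ODF W ∅ A ∧ EncS A (D (Iio d)) := by
    intro d hd
    obtain ⟨A, hA, hA2⟩ := c1 d hd
    refine ⟨A, odf (fun z => J z d.toZFSet) ?_ A hA fun z => ?_, hA2⟩
    · exact DP.app2 (R := J) (hJ _ hPS) (DT.var 0) (DT.par (hod d hd))
    · rw [hA2, j_iff]
      constructor
      · rintro ⟨t, h3, h4⟩
        refine ⟨?_, t, h3, h4⟩
        rw [h4]
        exact (hmem t).2 (D_mono (Iio_subset_Iio hd.le) h3)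
      · rintro ⟨-, h⟩
        exact h
  have encs : ∀ (A B : Z) (X : Set T) (P : Z → Prop), EncS A X → (∀ z, z ∈ B ↔ z ∈ A ∧ P z) →
      EncS B {t | t ∈ X ∧ P (enc t)} := by
    intro A B X P hA hB z
    rw [hB, hA]
    constructor
    · rintro ⟨⟨t, h1, rfl⟩, h2⟩
      exact ⟨t, ⟨h1, h2⟩, rfl⟩
    · rintro ⟨t, ⟨h1, h2⟩, rfl⟩
      exact ⟨⟨t, h1, rfl⟩, h2⟩
  refine ⟨c1', ?_, ?_, ?_, ?_⟩
  · intro P hP d hd
    obtain ⟨A, hA, hA2⟩ := c1 d hd
    obtain ⟨B, hB, hB2⟩ := hz.sep P hP A hA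
    exact ⟨⟨d, hd, fun t ht => ht.1⟩, B, hB, encs A B _ P hA2 hB2⟩
  · intro P hP d hd
    obtain ⟨A, hA, hA2⟩ := c1' d hd
    have hAW : A ∈ W := hA.1
    have hPW : DP W W (fun v => P (v 0)) := DP.mono hPS.sub hP
    obtain ⟨B, hB, hB2⟩ := hz.sep P hPW A hAW
    refine ⟨⟨d, hd, fun t ht => ht.1⟩, B, ?_, encs A B _ P hA2 hB2⟩
    refine odf (fun z => z ∈ A ∧ P z) ?_ B hB fun z => ?_
    · exact DP.and (DP.mem (DT.var 0) (DT.par hA)) hP
    · rw [hB2]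
      exact ⟨fun h => ⟨hz.trans _ hAW _ h.1, h⟩, fun h => h.2⟩
  · intro A hA hAe
    refine ⟨⟨⟨A.rank, hrk A hA, ?_⟩, A, hA, ?_⟩, ?_⟩
    · intro t ht a ha
      exact (e3 t a ha).trans (ZFSet.rank_lt_of_mem ht)
    all_goals
      intro z
      constructor
      · intro h
        obtain ⟨t, rfl⟩ := hAe z h
        exact ⟨t, h, rfl⟩
      · rintro ⟨t, h, rfl⟩
        exact h
  · intro R hR d hd hex
    obtain ⟨A, hA, hA2⟩ := c1 d hd
    -- `w` is a bound for `z`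
    let B : Z → Z → Prop := fun z w => ∃ y ∈ W, J y w ∧ R z y
    have hB : DP W W (fun v => B (v 0) (v 1)) := by
      refine DP.ex (P := fun y v => J y (v 1) ∧ R (v 0) y) ?_
      exact DP.and (DP.app2 (R := J) (hJ W psW) (DT.var 0) (DT.var 2))
        (DP.app2 (R := R) hR (DT.var 1) (DT.var 0))
    let R' : Z → Z → Prop := fun z w => w.IsOrdinal ∧ B z w ∧ ∀ w' ∈ w, ¬ B z w'
    have hR' : DP W W (fun v => R' (v 0) (v 1)) := by
      refine DP.and (DP.isord (DT.var 1)) (DP.and hB ?_)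
      refine DP.ball (P := fun w' v => ¬ B (v 0) w') (DT.var 1) ?_
      exact DP.not (DP.app2 (R := B) hB (DT.var 1) (DT.var 0))
    have hBi : ∀ (x : T) (c : O), c ≤ κ → (B (enc x) c.toZFSet ↔ ∃ y ∈ D (Iio c), R (enc x) (enc y)) := by
      intro x c hc
      constructor
      · rintro ⟨y, hy, h1, h2⟩
        obtain ⟨t, ht, rfl⟩ := j_iff.1 h1
        exact ⟨t, ht, h2⟩
      · rintro ⟨t, ht, h2⟩
        exact ⟨enc t, (hmem t).2 (D_mono (Iio_subset_Iio hc) ht), j_iff.2 ⟨t, ht, rfl⟩, h2⟩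
    have hleast : ∀ x ∈ D (Iio d), ∃ c < κ, R' (enc x) c.toZFSet := by
      intro x hx
      obtain ⟨y, hy, hxy⟩ := hex x hx
      obtain ⟨v, hv, hyv⟩ := exists_below hlim y hy
      let s : Set O := {c | c < κ ∧ ∃ y ∈ D (Iio c), R (enc x) (enc y)}
      have hs : s.Nonempty := ⟨v, hv, y, hyv, hxy⟩
      obtain ⟨c, hc, hmin⟩ := wellFounded_lt.has_min s hs
      refine ⟨c, hc.1, ZFSet.isOrdinal_toZFSet c, (hBi x c hc.1.le).2 hc.2, ?_⟩
      intro w' hw' hBw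
      rw [Ordinal.mem_toZFSet_iff] at hw'
      obtain ⟨c', hc', rfl⟩ := hw'
      exact hmin c' ⟨hc'.trans hc.1, (hBi x c' (hc'.trans hc.1).le).1 hBw⟩ hc'
    obtain ⟨b, hb, hb2⟩ := hz.repl R' hR' A hA (by
      intro z hzA
      obtain ⟨x, hx, rfl⟩ := (hA2 z).1 hzA
      obtain ⟨c, hc, hcR⟩ := hleast x hx
      refine ⟨c.toZFSet, (hκ c).2 hc, hcR, ?_⟩
      rintro w hw ⟨h1, h2, h3⟩
      have h4 := h1.toZFSet_rank_eq
      rw [← h4] at h2 h3 ⊢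
      rcases lt_trichotomy w.rank c with h | h | h
      · exact absurd h2 (hcR.2.2 _ (Ordinal.toZFSet_mem_toZFSet_iff.2 h))
      · rw [h]
      · exact absurd hcR.2.1 (h3 _ (Ordinal.toZFSet_mem_toZFSet_iff.2 h)))
    refine ⟨b.rank, hrk b hb, fun x hx => ?_⟩
    obtain ⟨c, hc, hcR⟩ := hleast x hx
    have h1 : c.toZFSet ∈ b := (hb2 _).2 ⟨(hκ c).2 hc, enc x, (hA2 _).2 ⟨x, hx, rfl⟩, hcR⟩
    have h2 : c < b.rank := by
      have := ZFSet.rank_lt_of_mem h1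
      rwa [Ordinal.rank_toZFSet] at this
    obtain ⟨y, hy, hxy⟩ := (hBi x c hc.le).1 hcR.2.1
    exact ⟨y, D_mono (Iio_subset_Iio h2.le) hy, hxy⟩

end Pool.Agent.Helper17.OD.PkWCS
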