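import Pool.Agent.Helper17.OD.GoalsCV

/-! # Project OD (MP_064283_lc), packet CLM: the claim 3.10 -/

namespace Pool.Agent.Helper17.OD.PkCLM

open Set

theorem leaves_map {L L' : Type*} (f : L → L') (t : Tr L) : (t.map f).leaves = f '' t.leaves := by
  induction t with
  | nat n => simp [Tr.map, Tr.leaves]
  | ord a => simp [Tr.map, Tr.leaves]
  | pr s t hs ht => simp [Tr.map, Tr.leaves, hs, ht, image_union]

theorem leaves_ofCode {L : Type*} (c : Code) : (Tr.ofCode c : Tr L).leaves = ∅ := by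
  rw [Tr.ofCode, leaves_map]
  exact image_eq_empty.2 (eq_empty_of_isEmpty _)

theorem ofCode_mem (c : Code) (A : Set O) : (Tr.ofCode c : T) ∈ D A := by
  intro z hz
  rw [leaves_ofCode] at hz
  exact absurd hz (notMem_empty z)

theorem map_ofCode {L L' : Type*} (f : L → L') (c : Code) :
    (Tr.ofCode c : Tr L).map f = Tr.ofCode c := by
  induction c with
  | nat n => rfl
  | ord a => exact a.elim
  | pr s t hs ht =>
    change Tr.pr ((Tr.ofCode s).map f) ((Tr.ofCode t).map f) = Tr.pr (Tr.ofCode s) (Tr.ofCode t)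
    rw [hs, ht]

theorem map_mem {A B : Set O} {f : O → O} {t : T} (ht : t ∈ D A) (h : ∀ x ∈ A, f x ∈ B) :
    t.map f ∈ D B := by
  intro z hz
  rw [leaves_map] at hz
  obtain ⟨x, hx, rfl⟩ := hz
  exact h x (ht hx)

theorem not_lt_nat0 (s : T) : ¬ s.lt (.nat 0) := by
  cases s <;> simp [Tr.lt]

theorem av_mono (hLTO : G_LTO.{2}) {q q' : T} (h1 : ∃ φ u, q = .pr φ u)
    (h2 : ∃ φ u, q' = .pr φ u)
    (h : q.fst.lt q'.fst ∨ (q.fst = q'.fst ∧ ¬ q'.snd.lt q.snd)) {ψ : Code} {e : T}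
    (he : av q ψ e) : av q' ψ e := by
  obtain ⟨φ, u, rfl⟩ := h1
  obtain ⟨φ', u', rfl⟩ := h2
  obtain ⟨-, htr, htri⟩ := hLTO O
  simp only [Tr.fst, Tr.snd] at h
  simp only [av] at he ⊢
  rcases h with h | ⟨rfl, h⟩
  · rcases he with he | ⟨he, -⟩
    · exact Or.inl (htr _ _ _ he h)
    · rw [he]
      exact Or.inl h
  · rcases he with he | ⟨he, he2⟩
    · exact Or.inl he
    · refine Or.inr ⟨he, ?_⟩
      rcases htri u u' with h3 | h3 | h3
      · exact htr _ _ _ he2 h3
      · rw [← h3]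
        exact he2
      · exact absurd h3 h

theorem hm (hLTO : G_LTO.{2}) {k β : O} {I : Set T} {p₀ : T} {d₀ : O} (hI : Sys k β I p₀ d₀)
    {M M' : T} (hM : M ∈ I) (hM' : M' ∈ I) (h : mle M M') {A A' : Set O} (hA : A ⊆ A') {t : T}
    (ht : TCl (mA M) (av (mQ M)) A t) : TCl (mA M') (av (mQ M')) A' t := by
  have h1 : ∃ φ u, mQ M = .pr φ u := by
    obtain ⟨a, φ, u, d, e, -⟩ := hI.mice M hM
    exact ⟨_, _, by rw [e]; rfl⟩
  have h2 : ∃ φ u, mQ M' = .pr φ u := by
    obtain ⟨a, φ, u, d, e, -⟩ := hI.mice M' hM'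
    exact ⟨_, _, by rw [e]; rfl⟩
  have key := hI.lev M hM M' hM' h
  induction ht with
  | nat n => exact .nat n
  | base hx hxa => exact .base (hA hx) (lt_of_lt_of_le hxa h.1)
  | pr _ _ ih1 ih2 => exact .pr ih1 ih2
  | fst _ ih => exact .fst ih
  | snd _ ih => exact .snd ih
  | inner _ hb _ he hw ih1 ih2 => exact .inner ih1 (lt_of_lt_of_le hb h.1) ih2 he hw
  | top _ hq hw ih =>
    rcases key with he | he
    · rw [he] at hw
      exact .top ih (av_mono hLTO h1 h2 h.2.1 hq) hw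
    · exfalso
      rw [he] at hq
      simp only [av] at hq
      rcases hq with hq | ⟨-, hq⟩
      · exact not_lt_nat0 _ hq
      · exact not_lt_nat0 _ hq

theorem exW (hLTW : G_LTW.{2}) {b : O} {φ : Code} {e : T}
    (h : ∃ x ∈ D (Iio b), Tru b φ (.pr x e)) : ∃ z, IsW b φ e z := by
  have hwf := hLTW O
  let s : Set T := {x | x ∈ D (Iio b) ∧ Tru b φ (.pr x e)}
  have hs : s.Nonempty := by
    obtain ⟨x, h1, h2⟩ := h
    exact ⟨x, h1, h2⟩
  obtain ⟨z, hz, hmin⟩ := hwf.has_min s hs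
  exact ⟨z, hz.1, hz.2, fun y hy h2 => hmin y ⟨hy, h2⟩⟩

theorem uniqW (hLTO : G_LTO.{2}) {b : O} {φ : Code} {e x y : T} (hx : IsW b φ e x)
    (hy : IsW b φ e y) : x = y := by
  rcases (hLTO O).2.2 x y with h | h | h
  · exact absurd h (hy.2.2 x hx.1 hx.2.1)
  · exact h
  · exact absurd h (hx.2.2 y hy.1 hy.2.1)

theorem tt_id : TT (fun e => e) := ⟨.nat 0, fun _ => rfl⟩
theorem tt_fst {t : T → T} (h : TT t) : TT (fun e => (t e).fst) := by
  obtain ⟨c, hc⟩ := h
  exact ⟨.pr (.nat 0) c, fun e => congrArg Tr.fst (hc e)⟩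
theorem tt_snd {t : T → T} (h : TT t) : TT (fun e => (t e).snd) := by
  obtain ⟨c, hc⟩ := h
  exact ⟨.pr (.nat 1) c, fun e => congrArg Tr.snd (hc e)⟩

theorem thm (hLM0 : G_LM0) (hHCT : G_HCT) (hPJT : G_PJT) (hCON4 : G_CON4) (hCLF : G_CLF)
    (hCLA : G_CLA) (hCLB : G_CLB) (hMAPT : G_MAPT.{2, 2}) (hLTO : G_LTO.{2})
    (hLTW : G_LTW.{2}) : G_CLM := by
  intro k w τ β val π I p₀ d₀ f m g l q ph hH hI hcl hPJ hT hL hQ hph y hy
  obtain ⟨L1, L2, L3, L4, L5, L6, -⟩ := hLM0 k I _ g l hT hL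
  have hmono := hL.mono
  have hrng := hL.rng
  have honto := hL.onto
  have him := hT.im
  beta_reduce at L1 L2 L3 L4 L5 L6 hmono hrng honto him
  have F : ∀ M ∈ I, mA ((m M).map π) = π (mA (m M)) ∧ mD ((m M).map π) = π (mD M) ∧
      mP ((m M).map π) = (mP (m M)).map π ∧ mA (m M) < β ∧ mD M ≤ mA (m M) ∧
      mD (m M) = mD M ∧ mP (m M) ∈ D (Iio (mA (m M))) ∧ (mP (m M)).map (f M) = mP M ∧
      (m M).fst.IsOrd ∧ m M ∈ D (Iio β) ∧
      ∃ (ψ : Code) (v : T), mQ ((m M).map π) = .pr (Tr.ofCode ψ) v := by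
    intro M hM
    obtain ⟨a, φ, u, d, p, e1, e2, e3, e4, e5, e6, e7, e8⟩ := hcl.ms M hM
    rw [e1, ← e3, ← e8]
    refine ⟨rfl, rfl, rfl, e7, e4, rfl, e6, rfl, trivial, ?_, φ, u.map π, ?_⟩
    · refine pr_mem.2 ⟨ord_mem.2 e7, pr_mem.2 ⟨pr_mem.2 ⟨ofCode_mem _ _, ?_⟩,
        pr_mem.2 ⟨ord_mem.2 (lt_of_le_of_lt e4 e7), ?_⟩⟩⟩
      · exact D_mono (Iio_subset_Iio e7.le) e5
      · exact D_mono (Iio_subset_Iio e7.le) e6
    · change Tr.pr ((Tr.ofCode φ).map π) (u.map π) = _
      rw [map_ofCode]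
  have G : ∀ M ∈ I, d₀ ≤ mD M ∧ mD M < β ∧ mP M = p₀ := by
    intro M hM
    obtain ⟨a, φ, u, d, e1, -, -, e4, e5, -⟩ := hI.mice M hM
    rw [e1]
    exact ⟨e4, e5, rfl⟩
  have hπlt : ∀ {x y : O}, x < y → y < β → π x < π y := fun hxy hy =>
    hH.mono (hxy.trans hy) hy hxy
  -- moving up
  have up : ∀ M ∈ I, ∀ M' ∈ I, mle M M' → ∀ t₀ ∈ D (Iio (mA (m M))),
      ∃ t₁ ∈ D (Iio (mA (m M'))), (t₀.map π).map (g M) = (t₁.map π).map (g M') := by
    intro M hM M' hM' hle t₀ ht₀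
    have h1 : t₀.map (f M) ∈ D (HullM M) := by
      rw [← hcl.rng M hM]
      exact map_mem ht₀ fun x hx => mem_image_of_mem _ hx
    have h2 : HullM M ⊆ HullM M' := by
      intro x hx
      refine hm hLTO hI hM hM' hle ?_ hx
      rw [(G M hM).2.2, (G M' hM').2.2]
      exact union_subset_union_left _ (Iio_subset_Iio hle.2.2)
    have h3 : t₀.map (f M) ∈ D (f M' '' Iio (mA (m M'))) := by
      rw [hcl.rng M' hM']
      exact D_mono h2 h1
    obtain ⟨t₁, ht₁, h4⟩ := ((hMAPT O O (f M') (Iio (mA (m M')))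
      (hcl.mono M' hM')).2.2.2.2.2.2.2.2.1 _).1 h3
    refine ⟨t₁, ht₁, ?_⟩
    have h5 : PJ (m M) (m M') t₀ t₁ := (hPJ M hM M' hM' hle t₀ t₁).2 ⟨ht₀, ht₁, h4.symm⟩
    have hD : TDef (fun _ e => PJ e.fst e.snd.fst e.snd.snd.fst e.snd.snd.snd) :=
      hPJT _ _ _ _ (tt_fst tt_id) (tt_fst (tt_snd tt_id)) (tt_fst (tt_snd (tt_snd tt_id)))
        (tt_snd (tt_snd (tt_snd tt_id)))
    have hF := F M hM
    have hF' := F M' hM'
    have h6 := (hH.tdf (fun e => PJ e.fst e.snd.fst e.snd.snd.fst e.snd.snd.snd) hD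
      (.pr (m M) (.pr (m M') (.pr t₀ t₁))) (pr_mem.2 ⟨hF.2.2.2.2.2.2.2.2.2.1, pr_mem.2
        ⟨hF'.2.2.2.2.2.2.2.2.2.1, pr_mem.2 ⟨D_mono (Iio_subset_Iio hF.2.2.2.1.le) ht₀,
          D_mono (Iio_subset_Iio hF'.2.2.2.1.le) ht₁⟩⟩⟩)).1 h5
    exact L1 M hM M' hM' hle _ _ h6
  have up2 : ∀ M ∈ I, ∀ M' ∈ I, mle M M' → ∀ t ∈ D (Iio (mA ((m M).map π))),
      ∃ t' ∈ D (Iio (mA ((m M').map π))), t.map (g M) = t'.map (g M') ∧
        PJ ((m M).map π) ((m M').map π) t t' := by
    intro M hM M' hM' hle t ht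
    obtain ⟨t', ht'⟩ := (him M hM M' hM' hle).tot t ht
    exact ⟨t', ((him M hM M' hM' hle).dom t t' ht').2, L1 M hM M' hM' hle t t' ht', ht'⟩
  have ontoT : ∀ t : T, t ∈ D (Iio l) → ∃ M ∈ I, ∃ t' ∈ D (Iio (mA ((m M).map π))),
      t = t'.map (g M) := by
    intro t
    induction t with
    | nat n =>
      intro _
      obtain ⟨M, hM⟩ := hI.ne
      exact ⟨M, hM, .nat n, nat_mem _ _, rfl⟩
    | ord a =>
      intro h
      obtain ⟨M, hM, x, hx, e⟩ := honto a (ord_mem.1 h)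
      exact ⟨M, hM, .ord x, ord_mem.2 hx, by rw [← e]; rfl⟩
    | pr s t hs ht =>
      intro h
      obtain ⟨M, hM, s', hs', e1⟩ := hs (pr_mem.1 h).1
      obtain ⟨M', hM', t', ht', e2⟩ := ht (pr_mem.1 h).2
      obtain ⟨M'', hM'', h1, h2⟩ := hI.dir M hM M' hM'
      obtain ⟨s'', hs'', e3, -⟩ := up2 M hM M'' hM'' h1 s' hs'
      obtain ⟨t'', ht'', e4, -⟩ := up2 M' hM' M'' hM'' h2 t' ht'
      refine ⟨M'', hM'', .pr s'' t'', pr_mem.2 ⟨hs'', ht''⟩, ?_⟩
      rw [e1, e2, e3, e4]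
      rfl
  let C : Set O := {z | ∃ M ∈ I, ∃ x < mA (m M), z = g M (π x)}
  have onC : ∀ t : T, t ∈ D C → ∃ M ∈ I, ∃ t₀ ∈ D (Iio (mA (m M))),
      t = (t₀.map π).map (g M) := by
    intro t
    induction t with
    | nat n =>
      intro _
      obtain ⟨M, hM⟩ := hI.ne
      exact ⟨M, hM, .nat n, nat_mem _ _, rfl⟩
    | ord a =>
      intro h
      obtain ⟨M, hM, x, hx, e⟩ := ord_mem.1 h
      exact ⟨M, hM, .ord x, ord_mem.2 hx, by rw [e]; rfl⟩
    | pr s t hs ht =>
      intro h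
      obtain ⟨M, hM, s', hs', e1⟩ := hs (pr_mem.1 h).1
      obtain ⟨M', hM', t', ht', e2⟩ := ht (pr_mem.1 h).2
      obtain ⟨M'', hM'', h1, h2⟩ := hI.dir M hM M' hM'
      obtain ⟨s'', hs'', e3⟩ := up M hM M'' hM'' h1 s' hs'
      obtain ⟨t'', ht'', e4⟩ := up M' hM' M'' hM'' h2 t' ht'
      refine ⟨M'', hM'', .pr s'' t'', pr_mem.2 ⟨hs'', ht''⟩, ?_⟩
      rw [e1, e2, e3, e4]
      rfl
  have toC : ∀ M ∈ I, ∀ t₀ ∈ D (Iio (mA (m M))), (t₀.map π).map (g M) ∈ D C := by
    intro M hM t₀ ht₀ z hz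
    rw [leaves_map, leaves_map] at hz
    obtain ⟨z', ⟨x, hx, rfl⟩, rfl⟩ := hz
    exact ⟨M, hM, x, ht₀ hx, rfl⟩
  constructor
  · -- the hull is contained in `C`
    intro hyH
    have main : ∀ t : T, TCl l (av q) (π '' Iio d₀ ∪ ph.leaves) t → t ∈ D C := by
      intro t ht
      have hclat := (hCLA l (av q) (π '' Iio d₀ ∪ ph.leaves))
      induction ht with
      | nat n => exact nat_mem _ _
      | base hx hxl =>
        rename_i z
        refine ord_mem.2 ?_
        rcases hx with ⟨x, hx, rfl⟩ | hx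
        · obtain ⟨M, hM⟩ := hI.ne
          have hxD : x < mD M := lt_of_lt_of_le hx (G M hM).1
          refine ⟨M, hM, x, lt_of_lt_of_le hxD (F M hM).2.2.2.2.1, ?_⟩
          refine (L6 M hM (π x) ?_).symm
          rw [(F M hM).2.1]
          exact hπlt hxD (G M hM).2.1
        · obtain ⟨M, hM⟩ := hI.ne
          have hF := F M hM
          rw [← hph M hM, hF.2.2.1, leaves_map, leaves_map] at hx
          obtain ⟨z', ⟨x, hx, rfl⟩, rfl⟩ := hx
          exact ⟨M, hM, x, hF.2.2.2.2.2.2.1 hx, rfl⟩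
      | pr _ _ ih1 ih2 => exact pr_mem.2 ⟨ih1, ih2⟩
      | fst _ ih => exact fst_mem ih
      | snd _ ih => exact snd_mem ih
      | inner hb0 hbl he0 he hw ih1 ih2 =>
        rename_i b φ e x
        obtain ⟨M, hM, t₀, ht₀, e1⟩ := onC _ (pr_mem.2 ⟨ih1, ih2⟩)
        have hxl : x ∈ D (Iio l) := D_mono (Iio_subset_Iio hbl.le) hw.1
        obtain ⟨M₁, hM₁, x', hx', e2⟩ := ontoT x hxl
        obtain ⟨M', hM', hle1, hle2⟩ := hI.dir M hM M₁ hM₁
        obtain ⟨t₁, ht₁, e3⟩ := up M hM M' hM' hle1 t₀ ht₀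
        obtain ⟨x'', hx'', e4, -⟩ := up2 M₁ hM₁ M' hM' hle2 x' hx'
        rw [e3] at e1
        rw [e4] at e2
        clear e3 e4 hx' ht₀
        -- decompose `t₁`
        cases t₁ with
        | nat n => exact absurd e1 (by simp [Tr.map])
        | ord a => exact absurd e1 (by simp [Tr.map])
        | pr s₁ e₁ =>
          cases s₁ with
          | nat n => exact absurd e1 (by simp [Tr.map])
          | pr a c => exact absurd e1 (by simp [Tr.map])
          | ord b₁ =>
            simp only [Tr.map, Tr.pr.injEq, Tr.ord.injEq] at e1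
            obtain ⟨e5, e6⟩ := e1
            have hb₁ : b₁ < mA (m M') := ord_mem.1 (pr_mem.1 ht₁).1
            have he₁ : e₁ ∈ D (Iio (mA (m M'))) := (pr_mem.1 ht₁).2
            have hF := F M' hM'
            have hπb₁ : π b₁ < mA ((m M').map π) := by
              rw [hF.1]
              exact hπlt hb₁ hF.2.2.2.1
            have hmg := hmono M' hM'
            -- `e₁` is below `b₁`
            have he₂ : e₁ ∈ D (Iio b₁) := by
              intro z hz
              have hz1 : z < mA (m M') := he₁ hz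
              have hz2 : g M' (π z) < b := by
                refine he ?_
                rw [e6, leaves_map, leaves_map]
                exact mem_image_of_mem _ (mem_image_of_mem _ hz)
              rw [e5] at hz2
              have hz3 : π z < π b₁ := by
                refine (hmg.lt_iff_lt ?_ hπb₁).1 hz2
                rw [hF.1]
                exact hπlt hz1 hF.2.2.2.1
              exact (hH.mono.lt_iff_lt (hz1.trans hF.2.2.2.1) (hb₁.trans hF.2.2.2.1)).1 hz3
            have hx₂ : x'' ∈ D (Iio (π b₁)) := by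
              intro z hz
              have hz1 : z < mA ((m M').map π) := hx'' hz
              have hz2 : g M' z < b := by
                refine hw.1 ?_
                rw [e2, leaves_map]
                exact mem_image_of_mem _ hz
              rw [e5] at hz2
              exact (hmg.lt_iff_lt hz1 hπb₁).1 hz2
            have heπ : e₁.map π ∈ D (Iio (π b₁)) :=
              map_mem he₂ fun z hz => hπlt hz (hb₁.trans hF.2.2.2.1)
            have htru : Tru (π b₁) φ (.pr x'' (e₁.map π)) := by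
              rw [L2 M' hM' (π b₁) hπb₁ _ (pr_mem.2 ⟨hx₂, heπ⟩) φ]
              have h7 := hw.2.1
              rw [e5, e2, e6] at h7
              exact h7
            obtain ⟨z, hz⟩ := exW hLTW ⟨x'', hx₂, htru⟩
            obtain ⟨x₁, hx₁, e7, -⟩ := hH.wit b₁ (hb₁.trans hF.2.2.2.1) e₁ he₂ φ z hz
            have hzD : z ∈ D (Iio (mA ((m M').map π))) :=
              D_mono (Iio_subset_Iio hπb₁.le) hz.1
            have h8 := L4 M' hM' (π b₁) hπb₁ _ heπ z hzD φ hz
            rw [← e5, ← e6] at h8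
            have h9 := uniqW hLTO hw h8
            rw [h9, e7]
            exact toC M' hM' x₁ (D_mono (Iio_subset_Iio hb₁.le) hx₁)
      | top he0 hq hw ih =>
        rename_i φ e x
        have hel : e ∈ D (Iio l) := by
          have := (hclat.1 e).1 he0
          exact D_mono hclat.2.1 this
        obtain ⟨M₀, hM₀, e', he', e0, hav⟩ := (hQ φ e hel).1 hq
        obtain ⟨M, hM, t₀, ht₀, e1⟩ := onC _ ih
        obtain ⟨M₁, hM₁, x', hx', e2⟩ := ontoT x hw.1
        obtain ⟨M₂, hM₂, hle1, hle2⟩ := hI.dir M hM M₁ hM₁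
        obtain ⟨t₁, ht₁, e3⟩ := up M hM M₂ hM₂ hle1 t₀ ht₀
        obtain ⟨x₂, hx₂, e4, -⟩ := up2 M₁ hM₁ M₂ hM₂ hle2 x' hx'
        obtain ⟨M', hM', hle3, hle4⟩ := hI.dir M₂ hM₂ M₀ hM₀
        obtain ⟨e₁, he₁, e5⟩ := up M₂ hM₂ M' hM' hle3 t₁ ht₁
        obtain ⟨x'', hx'', e6, -⟩ := up2 M₂ hM₂ M' hM' hle3 x₂ hx₂
        obtain ⟨e'', he'', e7, hpj⟩ := up2 M₀ hM₀ M' hM' hle4 e' he'
        have hF := F M' hM'
        rw [e3, e5] at e1
        rw [e4, e6] at e2
        rw [e7] at e0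
        have hmg := hmono M' hM'
        have hπe : e₁.map π ∈ D (Iio (mA ((m M').map π))) := by
          rw [hF.1]
          exact map_mem he₁ fun z hz => hπlt hz hF.2.2.2.1
        have e8 : e'' = e₁.map π :=
          (hMAPT O O (g M') _ hmg).2.2.1 e'' he'' _ hπe (e0.symm.trans e1)
        have hav' : av (mQ ((m M').map π)) φ (e₁.map π) := by
          rw [← e8]
          exact (him M₀ hM₀ M' hM' hle4).cut e' e'' φ hpj hav
        have hcode : Tr.ofCode φ = (mQ ((m M').map π)).fst ∨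
            (Tr.ofCode φ).lt (mQ ((m M').map π)).fst := by
          obtain ⟨ψ, v, e9⟩ := hF.2.2.2.2.2.2.2.2.2.2
          rw [e9] at hav' ⊢
          rcases hav' with h | ⟨h, -⟩
          · exact Or.inr h
          · exact Or.inl h
        have htru : Tru (mA ((m M').map π)) φ (.pr x'' (e₁.map π)) := by
          rw [L3 M' hM' _ (pr_mem.2 ⟨hx'', hπe⟩) φ hcode]
          have h7 := hw.2.1
          rw [e1, e2] at h7
          exact h7
        obtain ⟨z, hz⟩ := exW hLTW ⟨x'', hx'', htru⟩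
        have hz2 : IsW (π (mA (m M'))) φ (e₁.map π) z := by
          rw [← hF.1]
          exact hz
        obtain ⟨x₁, hx₁, e9, -⟩ := hH.wit (mA (m M')) hF.2.2.2.1 e₁ he₁ φ z hz2
        have h8 := L5 M' hM' _ hπe z hz.1 φ hav' hz
        rw [← e1] at h8
        have h9 := uniqW hLTO hw h8
        rw [h9, e9]
        exact toC M' hM' x₁ hx₁
    obtain ⟨M, hM, x, hx, e1⟩ := ord_mem.1 (main (.ord y) hyH)
    obtain ⟨x₁, hx₁, hyx⟩ := hH.unb y hy
    obtain ⟨M', hM', hle, hd⟩ := hI.cof M hM (Order.succ x₁) (hH.blim.succ_lt hx₁)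
    have hF := F M' hM'
    have hx₁D : x₁ < mD M' := lt_of_lt_of_le (Order.lt_succ x₁) hd
    have hyD : y < mD ((m M').map π) := by
      rw [hF.2.1]
      exact lt_of_le_of_lt hyx (hπlt hx₁D (G M' hM').2.1)
    obtain ⟨t₁, ht₁, e2⟩ := up M hM M' hM' hle (.ord x) (ord_mem.2 hx)
    cases t₁ with
    | nat n => exact absurd e2 (by simp [Tr.map])
    | pr a c => exact absurd e2 (by simp [Tr.map])
    | ord x' =>
      simp only [Tr.map, Tr.ord.injEq] at e2
      have hx' : x' < mA (m M') := ord_mem.1 ht₁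
      have hgy := L6 M' hM' y hyD
      have hyA : y < mA ((m M').map π) := by
        refine lt_of_lt_of_le hyD ?_
        rw [hF.2.1, hF.1]
        exact hH.mono.monotoneOn (G M' hM').2.1 hF.2.2.2.1 hF.2.2.2.2.1
      have hπx' : π x' < mA ((m M').map π) := by
        rw [hF.1]
        exact hπlt hx' hF.2.2.2.1
      refine ⟨x', hx'.trans hF.2.2.2.1, ?_⟩
      refine (hmono M' hM').injOn hπx' hyA ?_
      rw [hgy, e1, e2]
  · -- `π x` is in the hull
    rintro ⟨x, hx, rfl⟩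
    obtain ⟨M₁, hM₁, hcov⟩ := hI.cov x hx
    obtain ⟨M, hM, hle, hd⟩ := hI.cof M₁ hM₁ (Order.succ x) (hH.blim.succ_lt hx)
    have hxD : x < mD M := lt_of_lt_of_le (Order.lt_succ x) hd
    have hF := F M hM
    have hG := G M hM
    have h1 := hm hLTO hI hM₁ hM hle (Subset.refl _) hcov
    obtain ⟨d, hdl, h2⟩ := hCLF _ _ _ _ _ h1
    have hmf := hcl.mono M hM
    have hid := hcl.idd M hM
    have hdf : f M '' d.leaves = d.leaves := by
      ext z
      constructor
      · rintro ⟨z', hz', rfl⟩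
        rw [hid z' (lt_of_lt_of_le (hdl hz') hG.1)]
        exact hz'
      · intro hz
        exact ⟨z, hz, hid z (lt_of_lt_of_le (hdl hz) hG.1)⟩
    have hpf : f M '' (mP (m M)).leaves = p₀.leaves := by
      rw [← leaves_map, hF.2.2.2.2.2.2.2.1, hG.2.2]
    have hA₀ : d.leaves ∪ (mP (m M)).leaves ⊆ Iio (mA (m M)) := by
      refine union_subset ?_ hF.2.2.2.2.2.2.1
      intro z hz
      exact lt_of_lt_of_le (lt_of_lt_of_le (hdl hz) hG.1) hF.2.2.2.2.1
    have h3 : TCl (mA M) (av (mQ M)) (f M '' (d.leaves ∪ (mP (m M)).leaves)) (.ord x) := by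
      rw [image_union, hdf, hpf]
      exact h2
    obtain ⟨s, hs, e1, h4⟩ := (hCON4 (mA M) (mA (m M)) (f M) (mQ M)
      (Iio (mD M) ∪ (mP M).leaves) hmf (hcl.rng M hM) _ hA₀ (.ord x)).1 h3
    cases s with
    | nat n => exact absurd e1 (by simp [Tr.map])
    | pr a c => exact absurd e1 (by simp [Tr.map])
    | ord x' =>
      simp only [Tr.map, Tr.ord.injEq] at e1
      have hxx : x' = x := by
        refine hmf.injOn (ord_mem.1 hs) (lt_of_lt_of_le hxD hF.2.2.2.2.1) ?_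
        rw [e1, hid x hxD]
      rw [hxx] at h4
      have h5 : TCl (mA (m M)) (av (mQ (m M))) (d.leaves ∪ (mP (m M)).leaves) (.ord x) := by
        refine hCLB (mA (m M)) _ (av (mQ (m M))) (d.leaves ∪ (mP (m M)).leaves)
          (d.leaves ∪ (mP (m M)).leaves) ?_ ?_ _ h4
        · intro φ e he h
          exact (hcl.cut M hM φ e he).1 h
        · intro z hz hza
          exact TCl.base hz hza
      have hdD : d ∈ D (Iio (mA (m M))) := (subset_union_left).trans hA₀
      have h6 : HC (m M) d (.ord x) :=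
        ⟨hF.2.2.2.2.2.2.2.2.1, hF.2.2.2.2.2.2.1, hdD, h5⟩
      have hD : TDef (fun _ e => HC e.fst e.snd.fst e.snd.snd) :=
        hHCT _ _ _ (tt_fst tt_id) (tt_fst (tt_snd tt_id)) (tt_snd (tt_snd tt_id))
      have h7 := (hH.tdf (fun e => HC e.fst e.snd.fst e.snd.snd) hD
        (.pr (m M) (.pr d (.ord x))) (pr_mem.2 ⟨hF.2.2.2.2.2.2.2.2.2.1, pr_mem.2
          ⟨D_mono (Iio_subset_Iio hF.2.2.2.1.le) hdD, ord_mem.2 hx⟩⟩)).1 h6
      obtain ⟨-, -, -, h8⟩ := h7
      simp only [Tr.map, Tr.fst, Tr.snd] at h8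
      have hmg := hmono M hM
      have conv : ∀ (A : Set O) (t : T), TCl (mA ((m M).map π)) (av (mQ ((m M).map π))) A t →
          TCl l (av q) (g M '' A) (t.map (g M)) := by
        intro A t ht
        have hclat := hCLA (mA ((m M).map π)) (av (mQ ((m M).map π))) A
        have hmemD : ∀ t, TCl (mA ((m M).map π)) (av (mQ ((m M).map π))) A t →
            t ∈ D (Iio (mA ((m M).map π))) := fun t ht =>
          D_mono hclat.2.1 ((hclat.1 t).1 ht)
        induction ht with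
        | nat n => exact .nat n
        | base hx hxa => exact .base (mem_image_of_mem _ hx) (hrng M hM _ hxa)
        | pr _ _ ih1 ih2 => exact .pr ih1 ih2
        | fst h ih =>
          rename_i t
          rw [← ((hMAPT O O (g M) _ hmg).2.1 t).1]
          exact .fst ih
        | snd h ih =>
          rename_i t
          rw [← ((hMAPT O O (g M) _ hmg).2.1 t).2]
          exact .snd ih
        | inner hb0 hb he0 he hw ih1 ih2 =>
          rename_i b φ e x
          refine .inner ih1 (hrng M hM _ hb) ih2 ?_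
            (L4 M hM _ hb _ he _ (D_mono (Iio_subset_Iio hb.le) hw.1) φ hw)
          exact map_mem he fun z hz => hmg (lt_trans hz hb) hb hz
        | top he hq hw ih =>
          rename_i φ e x
          have heD := hmemD _ he
          refine .top ih ?_ (L5 M hM _ heD _ hw.1 φ hq hw)
          refine (hQ φ _ ?_).2 ⟨M, hM, e, heD, rfl, hq⟩
          exact map_mem heD fun z hz => hrng M hM z hz
      have h9 := conv _ _ h8
      have hgx : g M (π x) = π x := by
        refine L6 M hM (π x) ?_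
        rw [hF.2.1]
        exact hπlt hxD hG.2.1
      have h10 : TCl l (av q) (g M '' ((d.map π).leaves ∪ (mP ((m M).map π)).leaves))
          (.ord (π x)) := by
        have h11 := h9
        simp only [Tr.map] at h11
        rw [hgx] at h11
        exact h11
      refine hCLB l (av q) (av q) _ (π '' Iio d₀ ∪ ph.leaves) (fun _ _ _ h => h) ?_ _ h10
      rintro z ⟨z', hz', rfl⟩ hzl
      refine TCl.base ?_ hzl
      rcases hz' with hz' | hz'
      · rw [leaves_map] at hz'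
        obtain ⟨z'', hz'', rfl⟩ := hz'
        refine Or.inl ⟨z'', hdl hz'', (L6 M hM (π z'') ?_).symm⟩
        rw [hF.2.1]
        exact hπlt (lt_of_lt_of_le (hdl hz'') hG.1) hG.2.1
      · refine Or.inr ?_
        rw [← hph M hM, leaves_map]
        exact mem_image_of_mem _ hz'

end Pool.Agent.Helper17.OD.PkCLM
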